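import Pool.Agent.Run7.h872.LS.Pres

/-!
The canonical order `LB b` and its finite blocks.
-/

namespace Run7.h872.LS

/-- Keys: block index, integer position, and a position inside `ω + η`. -/
abbrev Key := ℕ ×ₗ ℤ ×ₗ (ℕ ⊕ₗ ℚ)

/-- The key with the given components. -/
def mk (n : ℕ) (z : ℤ) (u : ℕ ⊕ₗ ℚ) : Key := toLex (n, toLex (z, u))

theorem mk_surj (y : Key) : ∃ n z u, y = mk n z u := ⟨y.1, y.2.1, y.2.2, rfl⟩

theorem mk_inj {n n' : ℕ} {z z' : ℤ} {u u' : ℕ ⊕ₗ ℚ} :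
    mk n z u = mk n' z' u' ↔ n = n' ∧ z = z' ∧ u = u' := by
  unfold mk
  rw [toLex_inj, Prod.mk.injEq, toLex_inj, Prod.mk.injEq]

theorem mk_lt {n n' : ℕ} {z z' : ℤ} {u u' : ℕ ⊕ₗ ℚ} :
    mk n z u < mk n' z' u' ↔ n < n' ∨ (n = n' ∧ (z < z' ∨ (z = z' ∧ u < u'))) := by
  unfold mk
  rw [Prod.Lex.toLex_lt_toLex]
  simp only
  rw [Prod.Lex.toLex_lt_toLex]

/-- A point of the discrete part. -/
def pt (k : ℕ) : ℕ ⊕ₗ ℚ := toLex (Sum.inl k)
/-- A point of the dense part. -/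
def dn (q : ℚ) : ℕ ⊕ₗ ℚ := toLex (Sum.inr q)

theorem u_cases (u : ℕ ⊕ₗ ℚ) : (∃ k, u = pt k) ∨ ∃ q, u = dn q := by
  rcases h : ofLex u with k | q
  · exact Or.inl ⟨k, by rw [pt, ← h]; rfl⟩
  · exact Or.inr ⟨q, by rw [dn, ← h]; rfl⟩

theorem pt_lt_pt {k k' : ℕ} : pt k < pt k' ↔ k < k' := Sum.Lex.inl_lt_inl_iff
theorem dn_lt_dn {k k' : ℚ} : dn k < dn k' ↔ k < k' := Sum.Lex.inr_lt_inr_iff
theorem pt_lt_dn {k : ℕ} {q : ℚ} : pt k < dn q := Sum.Lex.inl_lt_inr _ _
theorem not_dn_lt_pt {k : ℕ} {q : ℚ} : ¬ dn q < pt k := Sum.Lex.not_inr_lt_inl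
theorem pt_inj {k k' : ℕ} : pt k = pt k' ↔ k = k' := by
  unfold pt; rw [toLex_inj, Sum.inl.injEq]
theorem pt_ne_dn {k : ℕ} {q : ℚ} : pt k ≠ dn q := by
  unfold pt dn; rw [Ne, toLex_inj]; simp

/-- The condition on the elements: the block at position `0` has length `b n`. -/
def Good (b : ℕ → ℕ) (y : Key) : Prop := ∀ n z k, y = mk n z (pt k) → z = 0 → k < b n

/-- The canonical order. -/
def LB (b : ℕ → ℕ) : Type := {y : Key // Good b y}

noncomputable instance (b : ℕ → ℕ) : LinearOrder (LB b) :=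
  inferInstanceAs (LinearOrder {y : Key // Good b y})

instance (b : ℕ → ℕ) : Countable (LB b) := by
  have h0 : Countable (ℕ ⊕ₗ ℚ) := inferInstanceAs (Countable (ℕ ⊕ ℚ))
  have h1 : Countable (ℤ ×ₗ (ℕ ⊕ₗ ℚ)) := inferInstanceAs (Countable (ℤ × (ℕ ⊕ₗ ℚ)))
  have h2 : Countable Key := inferInstanceAs (Countable (ℕ × (ℤ ×ₗ (ℕ ⊕ₗ ℚ))))
  exact inferInstanceAs (Countable {y : Key // Good b y})

theorem good_dn (b : ℕ → ℕ) (n : ℕ) (z : ℤ) (q : ℚ) : Good b (mk n z (dn q)) := by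
  intro n' z' k h
  rw [mk_inj] at h
  exact absurd h.2.2.symm pt_ne_dn

theorem good_pt {b : ℕ → ℕ} {n : ℕ} {z : ℤ} {k : ℕ} :
    Good b (mk n z (pt k)) ↔ (z = 0 → k < b n) := by
  constructor
  · intro h; exact h n z k rfl
  · intro h n' z' k' h' hz
    rw [mk_inj, pt_inj] at h'
    obtain ⟨rfl, rfl, rfl⟩ := h'
    exact h hz

instance (b : ℕ → ℕ) : Infinite (LB b) := by
  refine Infinite.of_injective (fun q : ℚ => (⟨mk 0 0 (dn q), good_dn b 0 0 q⟩ : LB b)) ?_
  intro q q' h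
  have h1 := congrArg Subtype.val h
  simp only at h1
  rw [mk_inj] at h1
  have h2 := h1.2.2
  unfold dn at h2
  rw [toLex_inj, Sum.inr.injEq] at h2
  exact h2

/-- Covering pairs of `LB b` are successive points of a discrete part. -/
theorem covBy_iff {b : ℕ → ℕ} {x y : LB b} : x ⋖ y ↔
    ∃ n z k, x.1 = mk n z (pt k) ∧ y.1 = mk n z (pt (k + 1)) := by
  constructor
  · rintro ⟨hlt, hno⟩
    obtain ⟨x, hx⟩ := x
    obtain ⟨y, hy⟩ := y
    obtain ⟨n, z, u, rfl⟩ := mk_surj x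
    obtain ⟨n', z', u', rfl⟩ := mk_surj y
    have hlt' : mk n z u < mk n' z' u' := hlt
    have hno' : ∀ w, Good b w → mk n z u < w → ¬ w < mk n' z' u' :=
      fun w hw h1 h2 => hno (c := ⟨w, hw⟩) h1 h2
    rw [mk_lt] at hlt'
    rcases u_cases u' with ⟨k', rfl⟩ | ⟨q', rfl⟩
    · by_cases hsame : n = n' ∧ z = z'
      · obtain ⟨rfl, rfl⟩ := hsame
        have hu : u < pt k' := by
          rcases hlt' with h | ⟨-, h | ⟨-, h⟩⟩
          · exact absurd h (lt_irrefl _)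
          · exact absurd h (lt_irrefl _)
          · exact h
        rcases u_cases u with ⟨k, rfl⟩ | ⟨q, rfl⟩
        · rw [pt_lt_pt] at hu
          rcases Nat.lt_or_ge (k + 1) k' with h | h
          · exfalso
            refine hno' (mk n z (pt (k + 1))) (good_pt.2 fun hz => ?_)
              (mk_lt.2 (Or.inr ⟨rfl, Or.inr ⟨rfl, pt_lt_pt.2 (by omega)⟩⟩))
              (mk_lt.2 (Or.inr ⟨rfl, Or.inr ⟨rfl, pt_lt_pt.2 h⟩⟩))
            have := good_pt.1 hy hz
            omega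
          · have : k' = k + 1 := by omega
            subst this
            exact ⟨n, z, k, rfl, rfl⟩
        · exact absurd hu not_dn_lt_pt
      · exfalso
        -- take a dense point in the summand before
        have h1 : ∃ q, mk n z u < mk n' (z' - 1) (dn q) := by
          by_cases h2 : n = n' ∧ z = z' - 1
          · obtain ⟨rfl, rfl⟩ := h2
            rcases u_cases u with ⟨k, rfl⟩ | ⟨q, rfl⟩
            · exact ⟨0, mk_lt.2 (Or.inr ⟨rfl, Or.inr ⟨rfl, pt_lt_dn⟩⟩)⟩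
            · exact ⟨q + 1, mk_lt.2 (Or.inr ⟨rfl, Or.inr ⟨rfl, dn_lt_dn.2 (by linarith)⟩⟩)⟩
          · refine ⟨0, mk_lt.2 ?_⟩
            rcases hlt' with h | ⟨h3, h | ⟨h4, h⟩⟩
            · exact Or.inl h
            · refine Or.inr ⟨h3, Or.inl ?_⟩
              have : z ≠ z' - 1 := fun h5 => h2 ⟨h3, h5⟩
              omega
            · exact absurd ⟨h3, h4⟩ hsame
        obtain ⟨q, hq⟩ := h1
        exact hno' _ (good_dn b _ _ _) hq (mk_lt.2 (Or.inr ⟨rfl, Or.inl (by omega)⟩))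
    · exfalso
      by_cases hsame : n = n' ∧ z = z' ∧ ∃ q, u = dn q
      · obtain ⟨rfl, rfl, q, rfl⟩ := hsame
        have hu : q < q' := by
          rcases hlt' with h | ⟨-, h | ⟨-, h⟩⟩
          · exact absurd h (lt_irrefl _)
          · exact absurd h (lt_irrefl _)
          · exact dn_lt_dn.1 h
        obtain ⟨w, hw1, hw2⟩ := exists_between hu
        exact hno' _ (good_dn b n z w) (mk_lt.2 (Or.inr ⟨rfl, Or.inr ⟨rfl, dn_lt_dn.2 hw1⟩⟩))
          (mk_lt.2 (Or.inr ⟨rfl, Or.inr ⟨rfl, dn_lt_dn.2 hw2⟩⟩))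
      · refine hno' _ (good_dn b n' z' (q' - 1)) (mk_lt.2 ?_)
          (mk_lt.2 (Or.inr ⟨rfl, Or.inr ⟨rfl, dn_lt_dn.2 (by linarith)⟩⟩))
        rcases hlt' with h | ⟨h3, h | ⟨h4, h⟩⟩
        · exact Or.inl h
        · exact Or.inr ⟨h3, Or.inl h⟩
        · refine Or.inr ⟨h3, Or.inr ⟨h4, ?_⟩⟩
          rcases u_cases u with ⟨k, rfl⟩ | ⟨q, rfl⟩
          · exact pt_lt_dn
          · exact absurd ⟨h3, h4, q, rfl⟩ hsame
  · rintro ⟨n, z, k, hx, hy⟩
    constructor
    · show x.1 < y.1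
      rw [hx, hy]
      exact mk_lt.2 (Or.inr ⟨rfl, Or.inr ⟨rfl, pt_lt_pt.2 (by omega)⟩⟩)
    · intro c h1 h2
      have h1' : x.1 < c.1 := h1
      have h2' : c.1 < y.1 := h2
      obtain ⟨n', z', u, hc⟩ := mk_surj c.1
      rw [hx, hc, mk_lt] at h1'
      rw [hy, hc, mk_lt] at h2'
      have hn : n = n' := by omega
      subst hn
      have hz : z = z' := by
        rcases h1' with h | ⟨-, h | ⟨h, -⟩⟩
        · omega
        · rcases h2' with h' | ⟨-, h' | ⟨h', -⟩⟩ <;> omega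
        · exact h
      subst hz
      have h3 : pt k < u := by
        rcases h1' with h | ⟨-, h | ⟨-, h⟩⟩
        · omega
        · omega
        · exact h
      have h4 : u < pt (k + 1) := by
        rcases h2' with h | ⟨-, h | ⟨-, h⟩⟩
        · omega
        · omega
        · exact h
      rcases u_cases u with ⟨j, rfl⟩ | ⟨q, rfl⟩
      · rw [pt_lt_pt] at h3 h4; omega
      · exact not_dn_lt_pt h4

/-- `L` has a maximal block of exactly `m` successive elements. -/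
def HasBlock (L : Type) [LT L] (m : ℕ) : Prop :=
  ∃ f : ℕ → L, (∀ i, i + 1 < m → f i ⋖ f (i + 1)) ∧ (∀ y, ¬ y ⋖ f 0) ∧ ∀ y, ¬ f (m - 1) ⋖ y

theorem hasBlock_iff {b : ℕ → ℕ} {m : ℕ} (hm : 2 ≤ m) : HasBlock (LB b) m ↔ ∃ n, b n = m := by
  constructor
  · rintro ⟨f, h1, h2, h3⟩
    obtain ⟨n, z, k, hx, hy⟩ := covBy_iff.1 (h1 0 (by omega))
    have hk : k = 0 := by
      rcases Nat.eq_zero_or_pos k with h | h
      · exact h
      · exfalso
        obtain ⟨j, rfl⟩ := Nat.exists_eq_succ_of_ne_zero (Nat.pos_iff_ne_zero.1 h)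
        have hg : Good b (mk n z (pt j)) := by
          have hf := (f 0).2
          rw [hx, good_pt] at hf
          rw [good_pt]
          intro hz
          have := hf hz
          omega
        exact h2 ⟨_, hg⟩ (covBy_iff.2 ⟨n, z, j, rfl, hx⟩)
    subst hk
    have hall : ∀ i, i < m → (f i).1 = mk n z (pt i) := by
      intro i
      induction i with
      | zero => intro _; exact hx
      | succ i ih =>
        intro hi
        obtain ⟨n', z', k', hx', hy'⟩ := covBy_iff.1 (h1 i hi)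
        rw [ih (by omega), mk_inj, pt_inj] at hx'
        obtain ⟨rfl, rfl, rfl⟩ := hx'
        exact hy'
    have hlast := hall (m - 1) (by omega)
    by_cases hz : z = 0
    · refine ⟨n, ?_⟩
      have h4 := (f (m - 1)).2
      rw [hlast, good_pt] at h4
      have h5 := h4 hz
      have h6 : ¬ m < b n := by
        intro h6
        have hg : Good b (mk n z (pt m)) := good_pt.2 fun _ => h6
        refine h3 ⟨_, hg⟩ (covBy_iff.2 ⟨n, z, m - 1, hlast, ?_⟩)
        show mk n z (pt m) = _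
        congr 2
        omega
      omega
    · exfalso
      have hg : Good b (mk n z (pt m)) := good_pt.2 fun h => absurd h hz
      refine h3 ⟨_, hg⟩ (covBy_iff.2 ⟨n, z, m - 1, hlast, ?_⟩)
      show mk n z (pt m) = _
      congr 2
      omega
  · rintro ⟨n, rfl⟩
    have hg : ∀ i, Good b (mk n 0 (pt (if i < b n then i else 0))) := fun i => by
      rw [good_pt]
      intro _
      by_cases h : i < b n
      · rw [if_pos h]; exact h
      · rw [if_neg h]; omega
    have hval : ∀ i, i < b n → (⟨_, hg i⟩ : LB b).1 = mk n 0 (pt i) := fun i hi => by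
      simp only [if_pos hi]
    refine ⟨fun i => ⟨_, hg i⟩, fun i hi => covBy_iff.2 ⟨n, 0, i, hval i (by omega),
      hval (i + 1) hi⟩, fun y hy => ?_, fun y hy => ?_⟩
    · obtain ⟨n', z', k', -, hy'⟩ := covBy_iff.1 hy
      rw [hval 0 (by omega), mk_inj, pt_inj] at hy'
      omega
    · obtain ⟨n', z', k', hx', hy'⟩ := covBy_iff.1 hy
      rw [hval (b n - 1) (by omega), mk_inj, pt_inj] at hx'
      obtain ⟨rfl, rfl, hk⟩ := hx'
      have h4 := y.2
      rw [hy', good_pt] at h4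
      have := h4 rfl
      omega

end Run7.h872.LS
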