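import Pool.Agent.Helper578.JD.Core

/-!
Decidability relative to an oracle, closure properties, and normal forms for predicates which are
enumerable in the jump and in the double jump.
-/

namespace Run7.h872.LS

open Encodable Pool.Agent.Helper578.JD Pool.Agent.Helper578.JD.Oracle
open Pool.Agent.Helper578.JD.Defs Pool.Agent.Helper578.JD.RE

section basic

variable {α β γ : Type*} [Primcodable α] [Primcodable β] [Primcodable γ] {A : Set ℕ}

/-- `S` is decidable relative to `A`. -/
def DecIn (A : Set ℕ) (S : α → Prop) : Prop := REIn A S ∧ REIn A fun a => ¬ S a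

theorem DecIn.of_eq {S T : α → Prop} (h : DecIn A S) (hST : ∀ a, S a ↔ T a) : DecIn A T :=
  ⟨h.1.of_eq hST, h.2.of_eq fun a => not_congr (hST a)⟩

theorem DecIn.of_cp {S : α → Prop} (h : ComputablePred S) : DecIn A S :=
  ⟨REIn.of_re h.to_re, REIn.of_re h.not.to_re⟩

theorem DecIn.eq {f g : α → β} (hf : Computable f) (hg : Computable g) :
    DecIn A fun a => f a = g a := DecIn.of_cp (cp_eq hf hg)

theorem DecIn.lt {f g : α → ℕ} (hf : Computable f) (hg : Computable g) :
    DecIn A fun a => f a < g a := DecIn.of_cp (cp_lt hf hg)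

theorem DecIn.le {f g : α → ℕ} (hf : Computable f) (hg : Computable g) :
    DecIn A fun a => f a ≤ g a := DecIn.of_cp (cp_le hf hg)

theorem DecIn.mem {f : α → ℕ} (hf : Computable f) : DecIn A fun a => f a ∈ A :=
  ⟨REIn.mem hf, REIn.not_mem hf⟩

theorem DecIn.not {S : α → Prop} (h : DecIn A S) : DecIn A fun a => ¬ S a :=
  ⟨h.2, h.1.of_eq fun _ => not_not.symm⟩

theorem DecIn.and {S T : α → Prop} (hS : DecIn A S) (hT : DecIn A T) :
    DecIn A fun a => S a ∧ T a :=
  ⟨hS.1.and hT.1, (hS.2.or hT.2).of_eq fun a => by tauto⟩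

theorem DecIn.or {S T : α → Prop} (hS : DecIn A S) (hT : DecIn A T) :
    DecIn A fun a => S a ∨ T a :=
  ⟨hS.1.or hT.1, (hS.2.and hT.2).of_eq fun a => by tauto⟩

theorem DecIn.imp {S T : α → Prop} (hS : DecIn A S) (hT : DecIn A T) :
    DecIn A fun a => S a → T a :=
  (hS.not.or hT).of_eq fun a => by tauto

theorem DecIn.iff {S T : α → Prop} (hS : DecIn A S) (hT : DecIn A T) :
    DecIn A fun a => S a ↔ T a :=
  ((hS.imp hT).and (hT.imp hS)).of_eq fun a => by tauto

theorem DecIn.comp {S : β → Prop} (h : DecIn A S) {f : α → β} (hf : Computable f) :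
    DecIn A fun a => S (f a) :=
  ⟨h.1.comp hf, h.2.comp hf⟩

theorem REIn_ex_lt {S : α → ℕ → Prop} (hS : REIn A fun x : α × ℕ => S x.1 x.2) {f : α → ℕ}
    (hf : Computable f) : REIn A fun a => ∃ i < f a, S a i := by
  refine REIn.ex (S := fun a i => i < f a ∧ S a i) (REIn.and (REIn.of_re ?_) hS)
  exact RE.lt (by fun_prop) (by fun_prop)

theorem DecIn.all_lt {S : α → ℕ → Prop} (hS : DecIn A fun x : α × ℕ => S x.1 x.2) {f : α → ℕ}
    (hf : Computable f) : DecIn A fun a => ∀ i < f a, S a i :=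
  ⟨REIn.all_lt hS.1 hf, (REIn_ex_lt (S := fun a i => ¬ S a i) hS.2 hf).of_eq fun a => by
    push Not; rfl⟩

theorem DecIn.ex_lt {S : α → ℕ → Prop} (hS : DecIn A fun x : α × ℕ => S x.1 x.2) {f : α → ℕ}
    (hf : Computable f) : DecIn A fun a => ∃ i < f a, S a i :=
  ⟨REIn_ex_lt hS.1 hf, (REIn.all_lt (S := fun a i => ¬ S a i) hS.2 hf).of_eq fun a => by
    push Not; rfl⟩

theorem REIn_ex_mem {S : α → β → Prop} (hS : REIn A fun x : α × β => S x.1 x.2)
    {l : α → List β} (hl : Computable l) : REIn A fun a => ∃ x ∈ l a, S a x := by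
  refine REIn.ex (S := fun a x => x ∈ l a ∧ S a x) (REIn.and (REIn.of_re ?_) hS)
  exact RE.mem_list (by fun_prop) (by fun_prop)

theorem DecIn.all_mem {S : α → β → Prop} (hS : DecIn A fun x : α × β => S x.1 x.2)
    {l : α → List β} (hl : Computable l) : DecIn A fun a => ∀ x ∈ l a, S a x :=
  ⟨REIn.all_mem hS.1 hl, (REIn_ex_mem (S := fun a x => ¬ S a x) hS.2 hl).of_eq fun a => by
    push Not; rfl⟩

theorem DecIn.ok {f : α → Info} (hf : Computable f) : DecIn A fun a => Ok A (f a) := by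
  refine DecIn.and ?_ ?_
  · exact DecIn.all_mem (S := fun (_ : α) x => x ∈ A) (DecIn.mem (by fun_prop)) (by fun_prop)
  · exact DecIn.all_mem (S := fun (_ : α) x => x ∉ A) (DecIn.mem (by fun_prop)).not (by fun_prop)

theorem DecIn.mono {A B : Set ℕ} {S : α → Prop} (h : DecIn A S) (hAB : Red A B) : DecIn B S :=
  ⟨reMono h.1 hAB, reMono h.2 hAB⟩

theorem Red_iff_DecIn {A B : Set ℕ} : Red B A ↔ DecIn A (· ∈ B) := Red_iff

/-- A predicate enumerable in `A` is the projection of one decidable in `A`. -/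
theorem exists_proj {S : α → Prop} (h : REIn A S) :
    ∃ q : α → ℕ → Prop, (DecIn A fun x : α × ℕ => q x.1 x.2) ∧
      (∀ a s t, s ≤ t → q a s → q a t) ∧ ∀ a, S a ↔ ∃ s, q a s := by
  obtain ⟨R, hR, h⟩ := h
  obtain ⟨e, he⟩ := wst_univ hR
  refine ⟨fun a s => ∃ c < s + 1, ∃ i : Info, decode c = some i ∧
    wst (α × Info) e s (a, i) = true ∧ Ok A i, ?_, ?_, fun a => ?_⟩
  · refine DecIn.ex_lt (S := fun (x : α × ℕ) c => ∃ i : Info, decode c = some i ∧
      wst (α × Info) e x.2 (x.1, i) = true ∧ Ok A i) ?_ (by fun_prop)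
    have h1 : DecIn A fun y : (α × ℕ) × ℕ => (decode y.2 : Option Info).isSome = true ∧
        wst (α × Info) e y.1.2 (y.1.1, (decode y.2 : Option Info).getD ([], [])) = true ∧
        Ok A ((decode y.2 : Option Info).getD ([], [])) := by
      have hg : Computable fun y : (α × ℕ) × ℕ => (decode y.2 : Option Info).getD ([], []) :=
        Computable.option_getD (by fun_prop) (by fun_prop)
      refine DecIn.and (DecIn.eq (by fun_prop) (by fun_prop)) (DecIn.and ?_ (DecIn.ok hg))
      refine DecIn.eq ?_ (by fun_prop)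
      exact (wst_comp (α := α × Info)).comp (Computable.pair (Computable.pair (Computable.const e)
        (Computable.snd.comp Computable.fst)) (Computable.pair
        (Computable.fst.comp Computable.fst) hg))
    refine h1.of_eq fun y => ?_
    constructor
    · rintro ⟨h2, h3, h4⟩
      obtain ⟨i, hi⟩ := Option.isSome_iff_exists.1 h2
      rw [hi] at h3 h4
      exact ⟨i, hi, h3, h4⟩
    · rintro ⟨i, hi, h3, h4⟩
      rw [hi]
      exact ⟨rfl, h3, h4⟩
  · rintro a s t hst ⟨c, hc, i, hi, h3, h4⟩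
    exact ⟨c, by omega, i, hi, wst_mono hst h3, h4⟩
  · rw [h a]
    constructor
    · rintro ⟨c, h1, h2⟩
      obtain ⟨s, hs⟩ := (he (a, c)).1 h1
      refine ⟨max s (encode c), encode c, by omega, c, encodek c, wst_mono (by omega) hs, h2⟩
    · rintro ⟨s, c, -, i, hi, h3, h4⟩
      exact ⟨i, (he (a, i)).2 ⟨s, h3⟩, h4⟩

end basic

end Run7.h872.LS
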