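import Pool.Agent.Run7.h872.LS.Canon

/-!
Reading off the block sizes from a copy.
-/

namespace Run7.h872.LS

open Encodable Pool.Agent.Helper578.JD Pool.Agent.Helper578.JD.Oracle
open Pool.Agent.Helper578.JD.Defs Pool.Agent.Helper578.JD.RE

theorem DecIn_jump {α : Type} [Primcodable α] {A : Set ℕ} {S : α → Prop} (h : REIn A S) :
    DecIn (jump A) S := by
  obtain ⟨f, hf, h1⟩ := REIn_iff_jump.1 h
  exact (DecIn.mem hf).of_eq fun a => (h1 a).symm

/-- The jump is monotone. -/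
theorem jump_mono {A B : Set ℕ} (h : Red A B) : Red (jump A) (jump B) := by
  have h1 : REIn B (· ∈ jump A) := reMono mem_jump_re h
  exact Red_iff_DecIn.2 (DecIn_jump h1)

/-- The complement of the jump of `A` is not enumerable in `A`. -/
theorem not_REIn_compl_jump (A : Set ℕ) : ¬ REIn A fun n => n ∉ jump A := by
  rintro ⟨R, hR, h⟩
  obtain ⟨r, hr⟩ := recursion (β := Info) (P := fun e c => R e c) hR
  have h1 : r ∈ jump A ↔ ∃ c, R r c ∧ Ok A c := by
    constructor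
    · rintro ⟨c, h1, h2⟩; exact ⟨c, (hr c).1 h2, h1⟩
    · rintro ⟨c, h1, h2⟩; exact ⟨c, h2, (hr c).2 h1⟩
  have h2 := h r
  rw [← h1] at h2
  tauto

/-- Adjacency. -/
def radj (r : ℕ → ℕ → Prop) (x y : ℕ) : Prop := r x y ∧ ¬ ∃ z, r x z ∧ r z y

/-- The relation has a maximal block of `m` successive elements. -/
def rblk (r : ℕ → ℕ → Prop) (m : ℕ) : Prop :=
  ∃ l : List ℕ, (∀ i < m - 1, radj r ((l[i]?).getD 0) ((l[i + 1]?).getD 0)) ∧
    (¬ ∃ y, radj r y ((l[0]?).getD 0)) ∧ ¬ ∃ y, radj r ((l[m - 1]?).getD 0) y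

theorem radj_DecIn (r : ℕ → ℕ → Prop) : DecIn (jump (graph r)) fun x : ℕ × ℕ => radj r x.1 x.2 := by
  refine DecIn.and (DecIn.mono DecIn_graph (Red_jump _)) (DecIn.not (DecIn_jump ?_))
  refine REIn.ex (S := fun (x : ℕ × ℕ) z => r x.1 z ∧ r z x.2) (REIn.and ?_ ?_)
  · exact DecIn_graph.1.comp (f := fun x : (ℕ × ℕ) × ℕ => (x.1.1, x.2)) (by fun_prop)
  · exact DecIn_graph.1.comp (f := fun x : (ℕ × ℕ) × ℕ => (x.2, x.1.2)) (by fun_prop)

theorem pred_DecIn (r : ℕ → ℕ → Prop) :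
    DecIn (jump (jump (graph r))) fun x : ℕ => ∃ y, radj r y x := by
  refine DecIn_jump (REIn.ex (S := fun (x : ℕ) y => radj r y x) ?_)
  exact (radj_DecIn r).1.comp (f := fun x : ℕ × ℕ => (x.2, x.1)) (by fun_prop)

theorem succ_DecIn (r : ℕ → ℕ → Prop) :
    DecIn (jump (jump (graph r))) fun x : ℕ => ∃ y, radj r x y := by
  refine DecIn_jump (REIn.ex (S := fun (x : ℕ) y => radj r x y) ?_)
  exact (radj_DecIn r).1.comp (f := fun x : ℕ × ℕ => (x.1, x.2)) (by fun_prop)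

theorem rblk_REIn (r : ℕ → ℕ → Prop) : REIn (jump (jump (graph r))) (rblk r) := by
  have hget : ∀ {δ : Type} [Primcodable δ] {f : δ → List ℕ} {g : δ → ℕ}, Computable f →
      Computable g → Computable fun x => ((f x)[g x]?).getD 0 := fun hf hg =>
    Computable.option_getD (cgetElem hf hg) (Computable.const 0)
  refine REIn.ex (S := fun (m : ℕ) (l : List ℕ) =>
    (∀ i < m - 1, radj r ((l[i]?).getD 0) ((l[i + 1]?).getD 0)) ∧
    (¬ ∃ y, radj r y ((l[0]?).getD 0)) ∧ ¬ ∃ y, radj r ((l[m - 1]?).getD 0) y) ?_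
  refine REIn.and ?_ (REIn.and ?_ ?_)
  · refine REIn.all_lt (S := fun (x : ℕ × List ℕ) i =>
      radj r ((x.2[i]?).getD 0) ((x.2[i + 1]?).getD 0)) ?_ (by fun_prop)
    have h := (DecIn.mono (radj_DecIn r) (Red_jump _)).1
    exact h.comp (f := fun x : (ℕ × List ℕ) × ℕ => ((x.1.2[x.2]?).getD 0,
      (x.1.2[x.2 + 1]?).getD 0)) (Computable.pair (hget (by fun_prop) (by fun_prop))
      (hget (by fun_prop) (by fun_prop)))
  · exact (pred_DecIn r).2.comp (f := fun x : ℕ × List ℕ => (x.2[0]?).getD 0)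
      (hget (by fun_prop) (by fun_prop))
  · exact (succ_DecIn r).2.comp (f := fun x : ℕ × List ℕ => (x.2[x.1 - 1]?).getD 0)
      (hget (by fun_prop) (by fun_prop))

/-- `r` is a strict order on `D`, a set of natural numbers, making it isomorphic to `L`. -/
def IsCopyOn (L : Type) [LT L] (D : Set ℕ) (r : ℕ → ℕ → Prop) : Prop :=
  (∀ x y, r x y → x ∈ D ∧ y ∈ D) ∧ ∃ e : L ≃ D, ∀ a b, a < b ↔ r (e a) (e b)

theorem rblk_iff {L : Type} [LinearOrder L] {D : Set ℕ} {r : ℕ → ℕ → Prop}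
    (h : IsCopyOn L D r) {m : ℕ} (hm : 2 ≤ m) : rblk r m ↔ HasBlock L m := by
  obtain ⟨hD, e, he⟩ := h
  have hadj : ∀ a b, radj r (e a) (e b) ↔ a ⋖ b := by
    intro a b
    constructor
    · rintro ⟨h1, h2⟩
      exact ⟨(he a b).2 h1, fun c h3 h4 => h2 ⟨e c, (he _ _).1 h3, (he _ _).1 h4⟩⟩
    · rintro ⟨h1, h2⟩
      refine ⟨(he a b).1 h1, ?_⟩
      rintro ⟨z, h3, h4⟩
      have hz := (hD _ _ h3).2
      obtain ⟨c, hc⟩ := e.surjective ⟨z, hz⟩
      have hc' : ((e c : D) : ℕ) = z := by rw [hc]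
      rw [← hc'] at h3 h4
      exact h2 ((he _ _).2 h3) ((he _ _).2 h4)
  have hdom : ∀ x, x ∈ D → ∃ a, ((e a : D) : ℕ) = x := fun x hx => by
    obtain ⟨c, hc⟩ := e.surjective ⟨x, hx⟩
    exact ⟨c, by rw [hc]⟩
  constructor
  · rintro ⟨l, h1, h2, h3⟩
    have hmem : ∀ i, i ≤ m - 1 → (l[i]?).getD 0 ∈ D := by
      intro i hi
      rcases Nat.lt_or_ge i (m - 1) with h4 | h4
      · exact (hD _ _ (h1 i h4).1).1
      · have h5 : i = (m - 2) + 1 := by omega
        rw [h5]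
        exact (hD _ _ (h1 (m - 2) (by omega)).1).2
    obtain ⟨a0, ha0⟩ := hdom _ (hmem 0 (by omega))
    have hex : ∀ i, ∃ a, i ≤ m - 1 → ((e a : D) : ℕ) = (l[i]?).getD 0 := fun i => by
      by_cases hi : i ≤ m - 1
      · obtain ⟨a, ha⟩ := hdom _ (hmem i hi)
        exact ⟨a, fun _ => ha⟩
      · exact ⟨a0, fun h => absurd h hi⟩
    choose f hf using hex
    refine ⟨f, fun i hi => ?_, fun y hy => h2 ⟨e y, ?_⟩, fun y hy => h3 ⟨e y, ?_⟩⟩
    · rw [← hadj, hf i (by omega), hf (i + 1) (by omega)]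
      exact h1 i (by omega)
    · rw [← hf 0 (by omega)]; exact (hadj _ _).2 hy
    · rw [← hf (m - 1) le_rfl]; exact (hadj _ _).2 hy
  · rintro ⟨f, h1, h2, h3⟩
    have hget : ∀ i, i < m → ((((List.range m).map fun i => ((e (f i) : D) : ℕ))[i]?).getD 0)
        = (e (f i) : D) := by
      intro i hi
      rw [List.getElem?_map, List.getElem?_range hi]
      rfl
    refine ⟨(List.range m).map fun i => ((e (f i) : D) : ℕ), fun i hi => ?_, ?_, ?_⟩
    · rw [hget i (by omega), hget (i + 1) (by omega), hadj]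
      exact h1 i (by omega)
    · rintro ⟨y, hy⟩
      rw [hget 0 (by omega)] at hy
      obtain ⟨c, hc⟩ := hdom y (hD _ _ hy.1).1
      rw [← hc, hadj] at hy
      exact h2 c hy
    · rintro ⟨y, hy⟩
      rw [hget (m - 1) (by omega)] at hy
      obtain ⟨c, hc⟩ := hdom y (hD _ _ hy.1).2
      rw [← hc, hadj] at hy
      exact h3 c hy

end Run7.h872.LS
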