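import Mathlib

/-!
The order which is built from a set `V` of stages. It has order type `ω + η` if `V` is finite
and `c + η` if `V` is infinite.
-/

namespace Run7.h872.LS

/-- Dyadic rationals in `(0, 1]`, with code `(m, e)`. -/
def val (m e : ℕ) : ℚ := (2 * m + 1) / 2 ^ e

theorem val_lt_iff {m e m' e' : ℕ} : val m e < val m' e' ↔
    (2 * m + 1) * 2 ^ e' < (2 * m' + 1) * 2 ^ e := by
  unfold val
  rw [div_lt_div_iff₀ (by positivity) (by positivity)]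
  exact_mod_cast Iff.rfl

theorem val_inj {m e m' e' : ℕ} (h : val m e = val m' e') : m = m' ∧ e = e' := by
  have h1 : (2 * m + 1) * 2 ^ e' = (2 * m' + 1) * 2 ^ e := by
    unfold val at h
    rw [div_eq_div_iff (by positivity) (by positivity)] at h
    exact_mod_cast h
  have key : ∀ a b k : ℕ, (2 * a + 1) * 2 ^ k = 2 * b + 1 → k = 0 := by
    intro a b k hk
    rcases Nat.eq_zero_or_pos k with h0 | h0
    · exact h0
    · obtain ⟨j, rfl⟩ := Nat.exists_eq_succ_of_ne_zero (Nat.pos_iff_ne_zero.1 h0)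
      rw [pow_succ, ← mul_assoc, mul_comm _ 2] at hk
      omega
  rcases le_total e e' with he | he
  · obtain ⟨d, rfl⟩ := Nat.exists_eq_add_of_le he
    rw [pow_add, ← mul_assoc, mul_right_comm] at h1
    have h2 := Nat.eq_of_mul_eq_mul_right (by positivity) h1
    have h3 := key _ _ _ h2
    subst h3
    simp at h2
    exact ⟨h2, rfl⟩
  · obtain ⟨d, rfl⟩ := Nat.exists_eq_add_of_le he
    rw [pow_add, ← mul_assoc, mul_right_comm _ (2 ^ e') (2 ^ d)] at h1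
    have h2 := Nat.eq_of_mul_eq_mul_right (by positivity) h1
    have h3 := key _ _ _ h2.symm
    subst h3
    simp at h2
    exact ⟨h2, rfl⟩

theorem val_pos (m e : ℕ) : 0 < val m e := by unfold val; positivity

theorem val_zero : val 0 0 = 1 := by norm_num [val]

/-- Dyadic rationals strictly between `0` and `1`. -/
def dy : Set ℚ := {v | ∃ m e, 1 ≤ e ∧ 2 * m + 1 ≤ 2 ^ e ∧ v = val m e}

theorem dy_pos {v : ℚ} (h : v ∈ dy) : 0 < v := by
  obtain ⟨m, e, -, -, rfl⟩ := h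
  exact val_pos _ _

theorem dy_lt_one {v : ℚ} (h : v ∈ dy) : v < 1 := by
  obtain ⟨m, e, h1, h2, rfl⟩ := h
  rw [← val_zero, val_lt_iff]
  obtain ⟨d, rfl⟩ := Nat.exists_eq_add_of_le h1
  rw [pow_add] at *
  simp at *
  omega

theorem dy_dense {p q : ℚ} (h0 : 0 ≤ p) (h : p < q) (h1 : q ≤ 1) : ∃ v ∈ dy, p < v ∧ v < q := by
  obtain ⟨e, he⟩ := exists_nat_gt (2 / (q - p))
  have hpos : 0 < q - p := sub_pos.2 h
  have h2e : (e : ℚ) < 2 ^ e := by exact_mod_cast Nat.lt_two_pow_self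
  have h3 : 2 / (q - p) < 2 ^ e := lt_trans he h2e
  have h4 : 2 < (q - p) * 2 ^ e := by
    rw [div_lt_iff₀ hpos] at h3; linarith
  -- `m` with `p * 2 ^ e < 2 * m + 1 ≤ p * 2 ^ e + 2`
  let m := ⌊(p * 2 ^ e + 1) / 2⌋₊
  have hm1 : (m : ℚ) ≤ (p * 2 ^ e + 1) / 2 := Nat.floor_le (by positivity)
  have hm2 : (p * 2 ^ e + 1) / 2 < (m : ℚ) + 1 := Nat.lt_floor_add_one _
  have hpe : (0 : ℚ) < 2 ^ e := by positivity
  have h5 : p < val m e := by
    unfold val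
    rw [lt_div_iff₀ hpe]
    linarith
  have h6 : val m e < q := by
    unfold val
    rw [div_lt_iff₀ hpe]
    have : (2 * (m : ℚ) + 1) ≤ p * 2 ^ e + 2 := by linarith
    nlinarith
  refine ⟨val m e, ⟨m, e, ?_, ?_, rfl⟩, h5, h6⟩
  · rcases Nat.eq_zero_or_pos e with h7 | h7
    · exfalso
      subst h7
      norm_num at h4
      linarith
    · exact h7
  · have h7 : val m e < 1 := lt_of_lt_of_le h6 h1
    rw [← val_zero, val_lt_iff] at h7
    simp at h7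
    omega

/-- `k` is released: it is not in the core and there is a stage `s ≥ k` in `V`. -/
def rel (c : ℕ) (V : Set ℕ) (k : ℕ) : Prop := c ≤ k ∧ ∃ s ∈ V, k ≤ s

/-- The first stage of `V` after `k`. -/
noncomputable def fe (V : Set ℕ) (k : ℕ) : ℕ := sInf {s | s ∈ V ∧ k ≤ s}

theorem fe_spec {V : Set ℕ} {k : ℕ} (h : ∃ s ∈ V, k ≤ s) :
    fe V k ∈ V ∧ k ≤ fe V k ∧ ∀ s < fe V k, k ≤ s → s ∉ V := by
  have hne : {s | s ∈ V ∧ k ≤ s}.Nonempty := by obtain ⟨s, h1, h2⟩ := h; exact ⟨s, h1, h2⟩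
  have h1 := Nat.sInf_mem hne
  exact ⟨h1.1, h1.2, fun s hs hk hV => Nat.notMem_of_lt_sInf hs ⟨hV, hk⟩⟩

theorem fe_eq {V : Set ℕ} {k s : ℕ} (hs : s ∈ V) (hk : k ≤ s) (h : ∀ t < s, k ≤ t → t ∉ V) :
    fe V k = s := by
  have h1 := fe_spec ⟨s, hs, hk⟩
  rcases lt_trichotomy (fe V k) s with h2 | h2 | h2
  · exact absurd h1.1 (h _ h2 h1.2.1)
  · exact h2
  · exact absurd hs (h1.2.2 _ h2 hk)

open Classical in
/-- The group key: final part `0`, released points `- stage - 1`, other points `⊥`. -/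
noncomputable def gk (c : ℕ) (V : Set ℕ) : ℕ → WithBot ℤ
  | 0 => ((0 : ℤ) : WithBot ℤ)
  | k + 1 => if rel c V k then ((-(fe V k : ℤ) - 1 : ℤ) : WithBot ℤ) else ⊥

theorem gk_zero (c : ℕ) (V : Set ℕ) : gk c V 0 = ((0 : ℤ) : WithBot ℤ) := rfl

theorem gk_rel {c : ℕ} {V : Set ℕ} {k : ℕ} (h : rel c V k) :
    gk c V (k + 1) = ((-(fe V k : ℤ) - 1 : ℤ) : WithBot ℤ) := if_pos h

theorem gk_not_rel {c : ℕ} {V : Set ℕ} {k : ℕ} (h : ¬ rel c V k) : gk c V (k + 1) = ⊥ := if_neg h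

theorem gk_succ_lt (c : ℕ) (V : Set ℕ) (k : ℕ) : gk c V (k + 1) < gk c V 0 := by
  by_cases h : rel c V k
  · rw [gk_rel h, gk_zero, WithBot.coe_lt_coe]; omega
  · rw [gk_not_rel h, gk_zero]; exact WithBot.bot_lt_coe _

/-- Comparison of two points. -/
def ptlt (c : ℕ) (V : Set ℕ) (k k' : ℕ) : Prop :=
  (k < k' ∧ (k < c ∨ ∀ s < k', k ≤ s → s ∉ V)) ∨
  (k' < k ∧ ¬ (k' < c ∨ ∀ s < k, k' ≤ s → s ∉ V))

theorem ptlt_aux {c : ℕ} {V : Set ℕ} {k k' : ℕ} (h : k < k') :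
    ((k < c ∨ ∀ s < k', k ≤ s → s ∉ V) → gk c V (k + 1) ≤ gk c V (k' + 1)) ∧
    (¬ (k < c ∨ ∀ s < k', k ≤ s → s ∉ V) → gk c V (k' + 1) < gk c V (k + 1)) := by
  constructor
  · rintro (h1 | h1)
    · rw [gk_not_rel (k := k) (fun h2 => by have := h2.1; omega)]; exact bot_le
    · by_cases hr : rel c V k
      · obtain ⟨s, hs, hks⟩ := hr.2
        have h2 : k' ≤ s := by
          by_contra h3; exact h1 s (by omega) hks hs
        have h3 : rel c V k' := ⟨by have := hr.1; omega, s, hs, h2⟩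
        have h4 : fe V k = fe V k' := by
          have h5 := fe_spec h3.2
          refine fe_eq h5.1 (by omega) fun t ht hkt => ?_
          rcases Nat.lt_or_ge t k' with h6 | h6
          · exact h1 t h6 hkt
          · exact h5.2.2 t ht h6
        rw [gk_rel hr, gk_rel h3, h4]
      · rw [gk_not_rel hr]; exact bot_le
  · intro h1
    push Not at h1
    obtain ⟨h2, s, hs, hks, hsV⟩ := h1
    have hr : rel c V k := ⟨h2, s, hsV, hks⟩
    have h3 : fe V k < k' := by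
      have h5 := fe_spec hr.2
      by_contra h6
      exact h5.2.2 s (by omega) hks hsV
    rw [gk_rel hr]
    by_cases hr' : rel c V k'
    · rw [gk_rel hr', WithBot.coe_lt_coe]
      have := (fe_spec hr'.2).2.1
      omega
    · rw [gk_not_rel hr']; exact WithBot.bot_lt_coe _

/-- Comparison of the first components. -/
def jlt (c : ℕ) (V : Set ℕ) (j j' : ℕ) : Prop :=
  (1 ≤ j ∧ j' = 0) ∨ (1 ≤ j ∧ 1 ≤ j' ∧ ptlt c V (j - 1) (j' - 1))

theorem jlt_iff (c : ℕ) (V : Set ℕ) (j j' : ℕ) :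
    jlt c V j j' ↔ (toLex (gk c V j, j) : WithBot ℤ ×ₗ ℕ) < toLex (gk c V j', j') := by
  rw [Prod.Lex.toLex_lt_toLex]
  simp only
  unfold jlt
  rcases Nat.eq_zero_or_pos j with rfl | hj
  · constructor
    · rintro (⟨h, -⟩ | ⟨h, -⟩) <;> omega
    · rcases Nat.eq_zero_or_pos j' with rfl | hj'
      · rintro (h | ⟨-, h⟩)
        · exact absurd h (lt_irrefl _)
        · omega
      · obtain ⟨k', rfl⟩ := Nat.exists_eq_succ_of_ne_zero (Nat.pos_iff_ne_zero.1 hj')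
        have := gk_succ_lt c V k'
        rintro (h | ⟨h, -⟩)
        · exact absurd h (not_lt_of_gt this)
        · rw [Nat.succ_eq_add_one] at h; rw [h] at this; exact absurd this (lt_irrefl _)
  · obtain ⟨k, rfl⟩ := Nat.exists_eq_succ_of_ne_zero (Nat.pos_iff_ne_zero.1 hj)
    rcases Nat.eq_zero_or_pos j' with rfl | hj'
    · have := gk_succ_lt c V k
      constructor
      · intro _; exact Or.inl this
      · intro _; exact Or.inl ⟨hj, rfl⟩
    · obtain ⟨k', rfl⟩ := Nat.exists_eq_succ_of_ne_zero (Nat.pos_iff_ne_zero.1 hj')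
      simp only [Nat.succ_eq_add_one, Nat.add_sub_cancel]
      constructor
      · rintro (⟨-, h⟩ | ⟨-, -, h⟩)
        · omega
        · rcases h with ⟨h1, h2⟩ | ⟨h1, h2⟩
          · rcases lt_or_eq_of_le ((ptlt_aux h1).1 h2) with h3 | h3
            · exact Or.inl h3
            · exact Or.inr ⟨h3, by omega⟩
          · exact Or.inl ((ptlt_aux h1).2 h2)
      · intro h
        refine Or.inr ⟨by omega, by omega, ?_⟩
        rcases lt_trichotomy k k' with h1 | h1 | h1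
        · left
          refine ⟨h1, ?_⟩
          by_contra h2
          have h3 := (ptlt_aux h1).2 h2
          rcases h with h | ⟨h, -⟩
          · exact lt_asymm h h3
          · rw [h] at h3; exact lt_irrefl _ h3
        · subst h1
          rcases h with h | ⟨-, h⟩
          · exact absurd h (lt_irrefl _)
          · omega
        · right
          refine ⟨h1, fun h2 => ?_⟩
          have h3 := (ptlt_aux h1).1 h2
          rcases h with h | ⟨-, h⟩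
          · exact absurd h (not_lt_of_ge h3)
          · omega

/-- Codes of the elements. -/
abbrev Cd := ℕ × ℕ × ℕ × ℕ

/-- The domain. -/
def ED (c : ℕ) (V : Set ℕ) (x : Cd) : Prop :=
  (x.1 = 0 ∧ x.2.1 = 0 ∧ 1 ≤ x.2.2.2 ∧ 2 * x.2.2.1 + 1 ≤ 2 ^ x.2.2.2) ∨
  (1 ≤ x.1 ∧ ((x.2.1 = 0 ∧ x.2.2.1 = 0 ∧ x.2.2.2 = 0) ∨
    (1 ≤ x.2.2.2 ∧ 2 * x.2.2.1 + 1 ≤ 2 ^ x.2.2.2 ∧ c ≤ x.1 - 1 ∧ x.1 - 1 ≤ x.2.1 ∧
      x.2.1 ∈ V ∧ ∀ t < x.2.1, x.1 - 1 ≤ t → t ∉ V)))

/-- The order relation. -/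
def elt (c : ℕ) (V : Set ℕ) (x y : Cd) : Prop :=
  jlt c V x.1 y.1 ∨ (x.1 = y.1 ∧
    (2 * x.2.2.1 + 1) * 2 ^ y.2.2.2 < (2 * y.2.2.1 + 1) * 2 ^ x.2.2.2)

/-- The key. -/
noncomputable def kap (c : ℕ) (V : Set ℕ) (x : Cd) : WithBot ℤ ×ₗ ℕ ×ₗ ℚ :=
  toLex (gk c V x.1, toLex (x.1, val x.2.2.1 x.2.2.2))

theorem elt_iff (c : ℕ) (V : Set ℕ) (x y : Cd) : elt c V x y ↔ kap c V x < kap c V y := by
  unfold elt kap
  rw [jlt_iff, ← val_lt_iff]
  simp only [Prod.Lex.toLex_lt_toLex]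
  constructor
  · rintro ((h | ⟨h1, h2⟩) | ⟨h1, h2⟩)
    · exact Or.inl h
    · exact Or.inr ⟨h1, Or.inl h2⟩
    · exact Or.inr ⟨by rw [h1], Or.inr ⟨h1, h2⟩⟩
  · rintro (h | ⟨h1, h2 | ⟨h2, h3⟩⟩)
    · exact Or.inl (Or.inl h)
    · exact Or.inl (Or.inr ⟨h1, h2⟩)
    · exact Or.inr ⟨h2, h3⟩

theorem kap_inj {c : ℕ} {V : Set ℕ} {x y : Cd} (hx : ED c V x) (hy : ED c V y)
    (h : kap c V x = kap c V y) : x = y := by
  obtain ⟨j, s, m, e⟩ := x
  obtain ⟨j', s', m', e'⟩ := y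
  unfold kap at h
  rw [toLex_inj] at h
  simp only [Prod.mk.injEq, toLex_inj] at h
  obtain ⟨-, rfl, h2⟩ := h
  obtain ⟨rfl, rfl⟩ := val_inj h2
  have : s = s' := by
    simp only [ED] at hx hy
    rcases hx with ⟨h1, h3, h4, -⟩ | ⟨h1, ⟨h3, h4, h5⟩ | ⟨h3, -, -, h4, h5, h6⟩⟩
    · rcases hy with ⟨-, h7, -⟩ | ⟨h7, -⟩
      · omega
      · omega
    · rcases hy with ⟨h6, -⟩ | ⟨-, ⟨h7, -⟩ | ⟨h7, -⟩⟩ <;> omega
    · rcases hy with ⟨h7, -⟩ | ⟨-, ⟨-, -, h7⟩ | ⟨-, -, -, h7, h8, h9⟩⟩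
      · omega
      · omega
      · rw [← fe_eq h5 h4 h6, ← fe_eq h8 h7 h9]
  rw [this]

/-- The rest: everything above the initial segment of unreleased points. -/
def Rst (c : ℕ) (V : Set ℕ) : Set (WithBot ℤ ×ₗ ℕ ×ₗ ℚ) :=
  {y | ∃ x, ED c V x ∧ kap c V x = y ∧ gk c V x.1 ≠ ⊥}

theorem mem_Rst {c : ℕ} {V : Set ℕ} {g : WithBot ℤ} {j : ℕ} {v : ℚ} :
    toLex (g, toLex (j, v)) ∈ Rst c V ↔ g = gk c V j ∧
      ((j = 0 ∧ v ∈ dy) ∨ (1 ≤ j ∧ rel c V (j - 1) ∧ (v ∈ dy ∨ v = 1))) := by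
  constructor
  · rintro ⟨⟨j', s, m, e⟩, hx, h, hb⟩
    unfold kap at h
    rw [toLex_inj] at h
    simp only [Prod.mk.injEq, toLex_inj] at h
    obtain ⟨rfl, rfl, rfl⟩ := h
    refine ⟨rfl, ?_⟩
    simp only [ED] at hx
    rcases hx with ⟨h1, h3, h4, h5⟩ | ⟨h1, h2⟩
    · exact Or.inl ⟨h1, m, e, h4, h5, rfl⟩
    · right
      obtain ⟨k, rfl⟩ := Nat.exists_eq_succ_of_ne_zero (show j' ≠ 0 by omega)
      simp only [Nat.succ_eq_add_one, Nat.add_sub_cancel] at *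
      have hr : rel c V k := by
        by_contra hr; exact hb (gk_not_rel hr)
      refine ⟨h1, hr, ?_⟩
      rcases h2 with ⟨h3, h4, h5⟩ | ⟨h3, h4, -⟩
      · right; rw [h4, h5, val_zero]
      · left; exact ⟨m, e, h3, h4, rfl⟩
  · rintro ⟨rfl, h⟩
    rcases h with ⟨rfl, m, e, h1, h2, rfl⟩ | ⟨hj, hr, h⟩
    · refine ⟨(0, 0, m, e), Or.inl ⟨rfl, rfl, h1, h2⟩, rfl, ?_⟩
      show gk c V 0 ≠ ⊥
      rw [gk_zero]; exact WithBot.coe_ne_bot
    · obtain ⟨k, rfl⟩ := Nat.exists_eq_succ_of_ne_zero (show j ≠ 0 by omega)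
      simp only [Nat.succ_eq_add_one, Nat.add_sub_cancel] at *
      have hb : gk c V (k + 1) ≠ ⊥ := by rw [gk_rel hr]; exact WithBot.coe_ne_bot
      rcases h with ⟨m, e, h1, h2, rfl⟩ | rfl
      · have h3 := fe_spec hr.2
        refine ⟨(k + 1, fe V k, m, e), Or.inr ⟨by simp, Or.inr ⟨h1, h2, ?_, ?_, ?_, ?_⟩⟩, rfl, hb⟩
        · simpa using hr.1
        · simpa using h3.2.1
        · exact h3.1
        · simpa using h3.2.2
      · refine ⟨(k + 1, 0, 0, 0), Or.inr ⟨by simp, Or.inl ⟨rfl, rfl, rfl⟩⟩, ?_, hb⟩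
        unfold kap; rw [val_zero]

theorem Rst_vpos {c : ℕ} {V : Set ℕ} {g : WithBot ℤ} {j : ℕ} {v : ℚ}
    (h : toLex (g, toLex (j, v)) ∈ Rst c V) : 0 < v ∧ v ≤ 1 := by
  rcases (mem_Rst.1 h).2 with ⟨-, h⟩ | ⟨-, -, h | h⟩
  · exact ⟨dy_pos h, le_of_lt (dy_lt_one h)⟩
  · exact ⟨dy_pos h, le_of_lt (dy_lt_one h)⟩
  · rw [h]; norm_num

/-- The value can be replaced by any smaller dyadic. -/
theorem Rst_dy {c : ℕ} {V : Set ℕ} {g : WithBot ℤ} {j : ℕ} {v w : ℚ}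
    (h : toLex (g, toLex (j, v)) ∈ Rst c V) (hw : w ∈ dy) :
    toLex (g, toLex (j, w)) ∈ Rst c V := by
  rw [mem_Rst] at *
  refine ⟨h.1, ?_⟩
  rcases h.2 with ⟨h1, -⟩ | ⟨h1, h2, -⟩
  · exact Or.inl ⟨h1, hw⟩
  · exact Or.inr ⟨h1, h2, Or.inl hw⟩

theorem Lex_exists {P : WithBot ℤ ×ₗ ℕ ×ₗ ℚ → Prop} (y : WithBot ℤ ×ₗ ℕ ×ₗ ℚ)
    (h : ∀ g j v, P (toLex (g, toLex (j, v)))) : P y := h y.1 y.2.1 y.2.2

theorem lexlt_v {g : WithBot ℤ} {j : ℕ} {v w : ℚ} (h : v < w) :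
    (toLex (g, toLex (j, v)) : WithBot ℤ ×ₗ ℕ ×ₗ ℚ) < toLex (g, toLex (j, w)) :=
  Prod.Lex.toLex_lt_toLex.2 (Or.inr ⟨rfl, Prod.Lex.toLex_lt_toLex.2 (Or.inr ⟨rfl, h⟩)⟩)

theorem Rst_iso (c : ℕ) (V : Set ℕ) : Nonempty (Rst c V ≃o ℚ) := by
  have hcount : Countable (WithBot ℤ ×ₗ ℕ ×ₗ ℚ) := by
    have h1 : Countable (WithBot ℤ) := inferInstanceAs (Countable (Option ℤ))
    have h2 : Countable (ℕ ×ₗ ℚ) := inferInstanceAs (Countable (ℕ × ℚ))
    exact inferInstanceAs (Countable (WithBot ℤ × (ℕ ×ₗ ℚ)))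
  obtain ⟨v0, hv0, -, -⟩ := dy_dense (p := 0) (q := 1) le_rfl (by norm_num) le_rfl
  have hz : toLex (gk c V 0, toLex (0, v0)) ∈ Rst c V := mem_Rst.2 ⟨rfl, Or.inl ⟨rfl, hv0⟩⟩
  have : Nonempty (Rst c V) := ⟨⟨_, hz⟩⟩
  have : DenselyOrdered (Rst c V) := by
    constructor
    rintro ⟨x, hx⟩ ⟨y, hy⟩ hxy
    have hxy' : x < y := hxy
    induction x using Lex_exists with | _ g j v
    induction y using Lex_exists with | _ g' j' v'
    simp only [Prod.Lex.toLex_lt_toLex] at hxy'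
    have h1 := Rst_vpos hx
    have h2 := Rst_vpos hy
    by_cases hgj : g = g' ∧ j = j'
    · obtain ⟨rfl, rfl⟩ := hgj
      have h3 : v < v' := by
        rcases hxy' with h | ⟨-, h | ⟨-, h⟩⟩
        · exact absurd h (lt_irrefl _)
        · exact absurd h (lt_irrefl _)
        · exact h
      obtain ⟨w, hw, hw1, hw2⟩ := dy_dense (le_of_lt h1.1) h3 h2.2
      refine ⟨⟨_, Rst_dy hy hw⟩, ?_, ?_⟩
      · exact lexlt_v hw1
      · exact lexlt_v hw2
    · obtain ⟨w, hw, -, hw2⟩ := dy_dense le_rfl h2.1 h2.2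
      refine ⟨⟨_, Rst_dy hy hw⟩, ?_, ?_⟩
      · show toLex (g, toLex (j, v)) < toLex (g', toLex (j', w))
        simp only [Prod.Lex.toLex_lt_toLex]
        rcases hxy' with h | ⟨h3, h | ⟨h4, h⟩⟩
        · exact Or.inl h
        · exact Or.inr ⟨h3, Or.inl h⟩
        · exact absurd ⟨h3, h4⟩ hgj
      · exact lexlt_v hw2
  have : NoMinOrder (Rst c V) := by
    constructor
    rintro ⟨y, hy⟩
    induction y using Lex_exists with | _ g' j' v'
    have h2 := Rst_vpos hy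
    obtain ⟨w, hw, -, hw2⟩ := dy_dense le_rfl h2.1 h2.2
    refine ⟨⟨_, Rst_dy hy hw⟩, ?_⟩
    exact lexlt_v hw2
  have : NoMaxOrder (Rst c V) := by
    constructor
    rintro ⟨y, hy⟩
    induction y using Lex_exists with | _ g' j' v'
    rcases Nat.eq_zero_or_pos j' with rfl | hj
    · have h2 := (mem_Rst.1 hy).2
      have h3 : v' ∈ dy := by
        rcases h2 with ⟨-, h⟩ | ⟨h, -⟩
        · exact h
        · omega
      obtain ⟨w, hw, hw1, -⟩ := dy_dense (le_of_lt (dy_pos h3)) (dy_lt_one h3) le_rfl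
      refine ⟨⟨_, Rst_dy hy hw⟩, ?_⟩
      exact lexlt_v hw1
    · refine ⟨⟨_, hz⟩, ?_⟩
      show toLex (g', toLex (j', v')) < toLex (gk c V 0, toLex (0, v0))
      simp only [Prod.Lex.toLex_lt_toLex]
      left
      rw [(mem_Rst.1 hy).1]
      obtain ⟨k, rfl⟩ := Nat.exists_eq_succ_of_ne_zero (Nat.pos_iff_ne_zero.1 hj)
      exact gk_succ_lt c V k
  exact Order.iso_of_countable_dense (Rst c V) ℚ

/-- The unreleased points. -/
def Low (c : ℕ) (V : Set ℕ) : Set ℕ := {k | ¬ rel c V k}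

theorem Low_iso (c : ℕ) (V : Set ℕ) : Nonempty (Low c V ≃o {k : ℕ // V.Infinite → k < c}) := by
  by_cases hV : V.Infinite
  · have h : Low c V = {k : ℕ | V.Infinite → k < c} := by
      ext k
      constructor
      · intro h _
        by_contra h1
        obtain ⟨s, hs, hs'⟩ := hV.exists_gt k
        exact h ⟨by omega, s, hs, le_of_lt hs'⟩
      · intro h h1
        have := h hV
        have := h1.1
        omega
    exact ⟨OrderIso.setCongr _ _ h⟩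
  · have hfin : V.Finite := Set.not_infinite.1 hV
    obtain ⟨M, hM⟩ := hfin.bddAbove
    have hinf : Infinite (Low c V) := by
      refine Infinite.of_injective (fun i : ℕ => (⟨M + 1 + i, ?_⟩ : Low c V)) ?_
      · rintro ⟨-, s, hs, hs'⟩
        have := hM hs
        omega
      · intro i j h
        have := congrArg Subtype.val h
        simp only at this
        omega
    have : DecidablePred (· ∈ Low c V) := Classical.decPred _
    have e1 := Nat.Subtype.orderIsoOfNat (Low c V)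
    have h : (Set.univ : Set ℕ) = {k : ℕ | V.Infinite → k < c} := by
      ext k; simp [hV]
    exact ⟨e1.symm.trans (OrderIso.Set.univ.symm.trans (OrderIso.setCongr _ _ h))⟩

/-- The order type of the fibre. -/
theorem fiber (c : ℕ) (V : Set ℕ) : ∃ φ : Cd → ℕ ⊕ₗ ℚ,
    (∀ x, ED c V x → ∀ k, φ x = toLex (Sum.inl k) → V.Infinite → k < c) ∧
    (∀ u, (∀ k, u = toLex (Sum.inl k) → V.Infinite → k < c) → ∃ x, ED c V x ∧ φ x = u) ∧
    ∀ x y, ED c V x → ED c V y → (elt c V x y ↔ φ x < φ y) := by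
  classical
  obtain ⟨ρ⟩ := Rst_iso c V
  obtain ⟨lo⟩ := Low_iso c V
  let φ : Cd → ℕ ⊕ₗ ℚ := fun x =>
    if h : ED c V x ∧ gk c V x.1 ≠ ⊥ then toLex (Sum.inr (ρ ⟨kap c V x, x, h.1, rfl, h.2⟩))
    else if h' : ¬ rel c V (x.1 - 1) then toLex (Sum.inl (lo ⟨x.1 - 1, h'⟩ : ℕ))
    else toLex (Sum.inl 0)
  have hlow : ∀ x, ED c V x → gk c V x.1 = ⊥ → ∃ k, ∃ hk : ¬ rel c V k, x = (k + 1, 0, 0, 0) ∧
      φ x = toLex (Sum.inl ((lo ⟨k, hk⟩ : {k : ℕ // V.Infinite → k < c}) : ℕ)) := by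
    intro x hx hb
    have h1 : φ x = if h' : ¬ rel c V (x.1 - 1) then toLex (Sum.inl (lo ⟨x.1 - 1, h'⟩ : ℕ))
        else toLex (Sum.inl 0) := by
      simp only [φ]
      rw [dif_neg (fun h => h.2 hb)]
    obtain ⟨j, s, m, e⟩ := x
    rcases Nat.eq_zero_or_pos j with rfl | hj
    · exact absurd hb (by simp only [gk_zero]; exact WithBot.coe_ne_bot)
    · obtain ⟨k, rfl⟩ := Nat.exists_eq_succ_of_ne_zero (Nat.pos_iff_ne_zero.1 hj)
      simp only [Nat.succ_eq_add_one, Nat.add_sub_cancel] at *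
      have hr : ¬ rel c V k := fun hr => by rw [gk_rel hr] at hb; exact WithBot.coe_ne_bot hb
      refine ⟨k, hr, ?_, ?_⟩
      · simp only [ED, Nat.add_sub_cancel] at hx
        rcases hx with ⟨h2, -⟩ | ⟨-, ⟨h3, h4, h5⟩ | ⟨-, -, h3, h4, h5, -⟩⟩
        · omega
        · rw [h3, h4, h5]
        · exact absurd ⟨h3, s, h5, h4⟩ hr
      · rw [h1, dif_pos hr]
  have hhigh : ∀ x (hx : ED c V x) (hb : gk c V x.1 ≠ ⊥),
      φ x = toLex (Sum.inr (ρ ⟨kap c V x, x, hx, rfl, hb⟩)) := fun x hx hb => by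
    simp only [φ]; rw [dif_pos ⟨hx, hb⟩]
  refine ⟨φ, ?_, ?_, ?_⟩
  · intro x hx k hk hV
    by_cases hb : gk c V x.1 = ⊥
    · obtain ⟨k', hk', -, h1⟩ := hlow x hx hb
      rw [hk, toLex_inj, Sum.inl.injEq] at h1
      rw [h1]
      exact (lo ⟨k', hk'⟩).2 hV
    · rw [hhigh x hx hb, toLex_inj] at hk
      cases hk
  · intro u hu
    rcases h : ofLex u with k | q
    · have hu' : u = toLex (Sum.inl k) := by rw [← h]; rfl
      obtain ⟨⟨k', hk'⟩, h1⟩ := lo.surjective ⟨k, hu k hu'⟩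
      have hD : ED c V (k' + 1, 0, 0, 0) := Or.inr ⟨by simp, Or.inl ⟨rfl, rfl, rfl⟩⟩
      refine ⟨(k' + 1, 0, 0, 0), hD, ?_⟩
      obtain ⟨k'', hk'', h2, h3⟩ := hlow _ hD (gk_not_rel hk')
      have h4 : k' = k'' := by simpa using h2
      subst h4
      rw [h3, h1, hu']
    · have hu' : u = toLex (Sum.inr q) := by rw [← h]; rfl
      obtain ⟨⟨y, x, hx, hy, hb⟩, h1⟩ := ρ.surjective q
      refine ⟨x, hx, ?_⟩
      rw [hhigh x hx hb, hu', toLex_inj, Sum.inr.injEq, ← h1]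
      congr 1
      exact Subtype.ext hy
  · intro x y hx hy
    rw [elt_iff]
    by_cases hbx : gk c V x.1 = ⊥
    · obtain ⟨k, hk, hxk, h1⟩ := hlow x hx hbx
      by_cases hby : gk c V y.1 = ⊥
      · obtain ⟨k', hk', hyk, h2⟩ := hlow y hy hby
        rw [h1, h2, Sum.Lex.inl_lt_inl_iff]
        have h3 : ((lo ⟨k, hk⟩ : {k : ℕ // V.Infinite → k < c}) : ℕ) <
            ((lo ⟨k', hk'⟩ : {k : ℕ // V.Infinite → k < c}) : ℕ) ↔ k < k' := by
          have : lo ⟨k, hk⟩ < lo ⟨k', hk'⟩ ↔ _ := lo.lt_iff_lt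
          rw [← Subtype.coe_lt_coe, ← Subtype.coe_lt_coe] at this
          exact this
        rw [h3, hxk, hyk]
        unfold kap
        simp only [Prod.Lex.toLex_lt_toLex, gk_not_rel hk, gk_not_rel hk']
        constructor
        · rintro (h | ⟨-, h | ⟨-, h⟩⟩)
          · exact absurd h (lt_irrefl _)
          · omega
          · exact absurd h (lt_irrefl _)
        · intro h; exact Or.inr ⟨trivial, Or.inl (by omega)⟩
      · rw [h1, hhigh y hy hby]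
        constructor
        · intro _; exact Sum.Lex.inl_lt_inr _ _
        · intro _
          unfold kap
          simp only [Prod.Lex.toLex_lt_toLex]
          left
          rw [hbx]
          exact bot_lt_iff_ne_bot.2 hby
    · by_cases hby : gk c V y.1 = ⊥
      · obtain ⟨k', hk', hyk, h2⟩ := hlow y hy hby
        rw [h2, hhigh x hx hbx]
        constructor
        · intro h
          exfalso
          unfold kap at h
          simp only [Prod.Lex.toLex_lt_toLex] at h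
          rw [hby] at h
          rcases h with h | ⟨h, -⟩
          · exact not_lt_bot h
          · exact hbx h
        · intro h; exact absurd h Sum.Lex.not_inr_lt_inl
      · rw [hhigh x hx hbx, hhigh y hy hby, Sum.Lex.inr_lt_inr_iff, ρ.lt_iff_lt,
          ← Subtype.coe_lt_coe]

end Run7.h872.LS
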