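import Pool.Agent.Run7.h872.LS.Dec

/-!
Normal forms for predicates enumerable in the jump and in the double jump.
-/

namespace Run7.h872.LS

open Encodable Pool.Agent.Helper578.JD Pool.Agent.Helper578.JD.Oracle
open Pool.Agent.Helper578.JD.Defs Pool.Agent.Helper578.JD.RE

section norm

variable {α β γ : Type} [Primcodable α] [Primcodable β] [Primcodable γ]

theorem exists_sigma2 {B : Set ℕ} {T : α → Prop} (h : REIn (jump B) T) :
    ∃ G : α → Info × ℕ → ℕ → Prop,
      (DecIn B fun x : (α × (Info × ℕ)) × ℕ => G x.1.1 x.1.2 x.2) ∧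
      ∀ x, T x ↔ ∃ b, ∀ t, G x b t := by
  obtain ⟨R, hR, h1⟩ := h
  obtain ⟨q0, hq0, m0, h2⟩ := exists_proj (A := B) (REIn.of_re hR)
  obtain ⟨qJ, hqJ, mJ, h3⟩ := exists_proj (mem_jump_re (A := B))
  refine ⟨fun x b t => q0 (x, b.1) b.2 ∧ (∀ y ∈ b.1.1, qJ y b.2) ∧ ∀ y ∈ b.1.2, ¬ qJ y t,
    ?_, fun x => ?_⟩
  · refine DecIn.and ?_ (DecIn.and ?_ ?_)
    · exact hq0.comp (f := fun x : (α × (Info × ℕ)) × ℕ => ((x.1.1, x.1.2.1), x.1.2.2))
        (by fun_prop)
    · exact DecIn.all_mem (S := fun (x : (α × (Info × ℕ)) × ℕ) y => qJ y x.1.2.2)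
        (hqJ.comp (f := fun x : ((α × (Info × ℕ)) × ℕ) × ℕ => (x.2, x.1.1.2.2)) (by fun_prop))
        (by fun_prop)
    · exact DecIn.all_mem (S := fun (x : (α × (Info × ℕ)) × ℕ) y => ¬ qJ y x.2)
        (hqJ.not.comp (f := fun x : ((α × (Info × ℕ)) × ℕ) × ℕ => (x.2, x.1.2)) (by fun_prop))
        (by fun_prop)
  · rw [h1 x]
    constructor
    · rintro ⟨c, hc, hok⟩
      obtain ⟨s, hs⟩ := (h2 (x, c)).1 hc
      have key : ∀ l : List ℕ, (∀ y ∈ l, y ∈ jump B) → ∃ t, ∀ y ∈ l, qJ y t := by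
        intro l
        induction l with
        | nil => intro _; exact ⟨0, fun y hy => by simp at hy⟩
        | cons a l ih =>
          intro hl
          obtain ⟨t, ht⟩ := ih fun y hy => hl y (List.mem_cons_of_mem _ hy)
          obtain ⟨t', ht'⟩ := (h3 a).1 (hl a List.mem_cons_self)
          refine ⟨max t t', fun y hy => ?_⟩
          rcases List.mem_cons.1 hy with rfl | hy
          · exact mJ _ _ _ (le_max_right _ _) ht'
          · exact mJ _ _ _ (le_max_left _ _) (ht y hy)
      obtain ⟨t, ht⟩ := key c.1 hok.1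
      refine ⟨(c, max s t), fun t' => ⟨m0 _ _ _ (le_max_left _ _) hs,
        fun y hy => mJ _ _ _ (le_max_right _ _) (ht y hy), fun y hy hq => ?_⟩⟩
      exact hok.2 y hy ((h3 y).2 ⟨t', hq⟩)
    · rintro ⟨b, hb⟩
      refine ⟨b.1, (h2 (x, b.1)).2 ⟨b.2, (hb 0).1⟩, fun y hy => (h3 y).2 ⟨b.2, (hb 0).2.1 y hy⟩,
        fun y hy hj => ?_⟩
      obtain ⟨t, ht⟩ := (h3 y).1 hj
      exact (hb t).2.2 y hy ht

/-- Replacing a quantifier over a coded type by one over the natural numbers. -/
theorem DecIn.codes {A : Set ℕ} {S : α → β → Prop} (b0 : β)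
    (hS : DecIn A fun x : α × β => S x.1 x.2) :
    ∃ S' : α → ℕ → Prop, (DecIn A fun x : α × ℕ => S' x.1 x.2) ∧
      (∀ a b, S a b → S' a (encode b)) ∧ ∀ a n, S' a n → ∃ b, decode n = some b ∧ S a b := by
  refine ⟨fun a n => (decode n : Option β).isSome = true ∧ S a ((decode n).getD b0), ?_,
    fun a b h => ?_, fun a n h => ?_⟩
  · refine DecIn.and (DecIn.eq (by fun_prop) (by fun_prop)) ?_
    have hg : Computable fun x : α × ℕ => (decode x.2 : Option β).getD b0 :=
      Computable.option_getD (by fun_prop) (by fun_prop)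
    exact hS.comp (f := fun x : α × ℕ => (x.1, (decode x.2 : Option β).getD b0))
      (Computable.pair Computable.fst hg)
  · simp only [encodek, Option.isSome_some, Option.getD_some, true_and]; exact h
  · obtain ⟨b, hb⟩ := Option.isSome_iff_exists.1 h.1
    refine ⟨b, hb, ?_⟩
    have := h.2
    rwa [hb, Option.getD_some] at this

theorem exists_inf {A : Set ℕ} {H : α → ℕ → ℕ → Prop}
    (hH : DecIn A fun x : (α × ℕ) × ℕ => H x.1.1 x.1.2 x.2) :
    ∃ Q : α → ℕ → Prop, (DecIn A fun x : α × ℕ => Q x.1 x.2) ∧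
      ∀ a, (∀ u, ∃ t, H a u t) ↔ {s | Q a s}.Infinite := by
  let P : α → ℕ → ℕ → Prop := fun a u t => ∀ u' < u + 1, ∃ t' < t, H a u' t'
  have hP : DecIn A fun x : (α × ℕ) × ℕ => P x.1.1 x.1.2 x.2 := by
    refine DecIn.all_lt (S := fun (x : (α × ℕ) × ℕ) u' => ∃ t' < x.2, H x.1.1 u' t') ?_
      (by fun_prop)
    refine DecIn.ex_lt (S := fun (x : ((α × ℕ) × ℕ) × ℕ) t' => H x.1.1.1 x.2 t') ?_ (by fun_prop)
    exact hH.comp (f := fun x : (((α × ℕ) × ℕ) × ℕ) × ℕ => ((x.1.1.1.1, x.1.2), x.2))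
      (by fun_prop)
  have hmono : ∀ a u t t', t ≤ t' → P a u t → P a u t' := fun a u t t' htt h u' hu' => by
    obtain ⟨s, hs, hs'⟩ := h u' hu'
    exact ⟨s, by omega, hs'⟩
  refine ⟨fun a s => P a s.unpair.1 (s.unpair.2 + 1) ∧ ¬ P a s.unpair.1 s.unpair.2, ?_,
    fun a => ?_⟩
  · refine DecIn.and ?_ (DecIn.not ?_)
    · exact hP.comp (f := fun x : α × ℕ => ((x.1, x.2.unpair.1), x.2.unpair.2 + 1))
        (by fun_prop)
    · exact hP.comp (f := fun x : α × ℕ => ((x.1, x.2.unpair.1), x.2.unpair.2))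
        (by fun_prop)
  · constructor
    · intro h
      have h1 : ∀ u, ∃ t, P a u (t + 1) ∧ ¬ P a u t := by
        intro u
        have h2 : ∃ t, P a u t := by
          choose f hf using h
          refine ⟨(Finset.range (u + 1)).sup f + 1, fun u' hu' => ⟨f u', ?_, hf u'⟩⟩
          exact Nat.lt_succ_of_le (Finset.le_sup (f := f) (Finset.mem_range.2 hu'))
        classical
        have h3 := Nat.find_spec h2
        have h4 : Nat.find h2 ≠ 0 := by
          intro h0
          rw [h0] at h3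
          obtain ⟨t', ht', -⟩ := h3 0 (Nat.succ_pos _)
          omega
        obtain ⟨t, ht⟩ := Nat.exists_eq_succ_of_ne_zero h4
        refine ⟨t, ?_, Nat.find_min h2 (by omega)⟩
        rw [← Nat.succ_eq_add_one, ← ht]; exact h3
      choose f hf using h1
      refine Set.infinite_of_injective_forall_mem (f := fun u => Nat.pair u (f u)) ?_ ?_
      · intro u v huv
        have := congrArg (fun n => n.unpair.1) huv
        simpa using this
      · intro u
        simpa using hf u
    · intro h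
      by_contra hcon
      push Not at hcon
      obtain ⟨u, hu⟩ := hcon
      apply h
      have h1 : ∀ s ∈ {s : ℕ | P a s.unpair.1 (s.unpair.2 + 1) ∧ ¬ P a s.unpair.1 s.unpair.2},
          s.unpair.1 < u := by
        intro s hs
        by_contra hlt
        obtain ⟨t', -, ht'⟩ := hs.1 u (by omega)
        exact hu t' ht'
      refine Set.Finite.of_finite_image (f := fun s => s.unpair.1)
        ((Set.finite_lt_nat u).subset ?_) ?_
      · rintro _ ⟨s, hs, rfl⟩
        exact h1 s hs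
      · intro s hs s' hs' hss'
        simp only at hss'
        have h2 : s.unpair.2 = s'.unpair.2 := by
          rcases lt_trichotomy s.unpair.2 s'.unpair.2 with h | h | h
          · exact absurd (hmono _ _ _ _ (by omega) (hss' ▸ hs.1)) hs'.2
          · exact h
          · exact absurd (hmono _ _ _ _ (by omega) (hss'.symm ▸ hs'.1)) hs.2
        rw [← Nat.pair_unpair s, ← Nat.pair_unpair s', hss', h2]

/-- A predicate enumerable in the double jump of `X` can be written in the form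
`exists b, infinitely many s, Q x b s` with `Q` decidable in `X`. -/
theorem exists_sigma3 {X : Set ℕ} {T : α → Prop} (h : REIn (jump (jump X)) T) :
    ∃ Q : α → ℕ → ℕ → Prop, (DecIn X fun x : (α × ℕ) × ℕ => Q x.1.1 x.1.2 x.2) ∧
      ∀ x, T x ↔ ∃ b, {s | Q x b s}.Infinite := by
  obtain ⟨G, hG, h1⟩ := exists_sigma2 h
  obtain ⟨G', hG', h2⟩ := exists_sigma2 (T := fun x : (α × (Info × ℕ)) × ℕ =>
    ¬ G x.1.1 x.1.2 x.2) hG.2
  -- quantifier over `(t, b')` coded by naturals
  have h3 : DecIn X fun x : ((α × (Info × ℕ)) × ℕ) × (ℕ × (Info × ℕ)) =>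
      G' (x.1.1, x.2.1) x.2.2 x.1.2 :=
    hG'.comp (f := fun x : ((α × (Info × ℕ)) × ℕ) × (ℕ × (Info × ℕ)) =>
      (((x.1.1, x.2.1), x.2.2), x.1.2)) (by fun_prop)
  obtain ⟨S', hS', h4, h5⟩ := DecIn.codes (S := fun (x : (α × (Info × ℕ)) × ℕ)
    (v : ℕ × (Info × ℕ)) => G' (x.1, v.1) v.2 x.2) (0, (([], []), 0)) h3
  obtain ⟨Q, hQ, h6⟩ := exists_inf (α := α × (Info × ℕ)) (A := X)
    (H := fun a u t => ¬ S' (a, t) u)
    (hS'.not.comp (f := fun x : ((α × (Info × ℕ)) × ℕ) × ℕ => ((x.1.1, x.2), x.1.2))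
      (by fun_prop))
  obtain ⟨Q', hQ', h7, h8⟩ := DecIn.codes (α := α × ℕ) (S := fun x (b : Info × ℕ) =>
    Q (x.1, b) x.2) (([], []), 0)
    (hQ.comp (f := fun x : (α × ℕ) × (Info × ℕ) => ((x.1.1, x.2), x.1.2)) (by fun_prop))
  refine ⟨fun x b s => Q' (x, s) b, hQ'.comp (f := fun x : (α × ℕ) × ℕ => ((x.1.1, x.2), x.1.2))
    (by fun_prop), fun x => ?_⟩
  have h9 : ∀ b, (∀ t, G x b t) ↔ {s | Q (x, b) s}.Infinite := by
    intro b
    rw [← h6]
    constructor
    · intro h u
      by_contra hcon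
      push Not at hcon
      obtain ⟨v, hv, -⟩ := h5 _ _ (hcon 0)
      have h10 : ¬ G x b v.1 := (h2 ((x, b), v.1)).2 ⟨v.2, fun t => by
        obtain ⟨v', hv', h11⟩ := h5 _ _ (hcon t)
        rw [hv] at hv'
        cases hv'
        exact h11⟩
      exact h10 (h v.1)
    · intro h t
      by_contra hcon
      obtain ⟨b', hb'⟩ := (h2 ((x, b), t)).1 hcon
      obtain ⟨t', ht'⟩ := h (encode (t, b'))
      exact ht' (h4 ((x, b), t') (t, b') (hb' t'))
  rw [h1 x]
  constructor
  · rintro ⟨b, hb⟩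
    refine ⟨encode b, ((h9 b).1 hb).mono fun s hs => h7 (x, s) b hs⟩
  · rintro ⟨n, hn⟩
    obtain ⟨s, hs⟩ := hn.nonempty
    obtain ⟨b, hb, -⟩ := h8 _ _ hs
    refine ⟨b, (h9 b).2 (hn.mono fun s hs => ?_)⟩
    obtain ⟨b', hb', h10⟩ := h8 _ _ hs
    rw [hb] at hb'
    cases hb'
    exact h10

/-- Making the witness unique. Of the two alternatives `T n 0`, `T n 1` exactly one holds; the
witness `a` carries it in its parity. -/
theorem exists_unique_witness {X : Set ℕ} {T : ℕ → ℕ → Prop}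
    (h : REIn (jump (jump X)) fun x : ℕ × ℕ => T x.1 x.2) (hT : ∀ n, T n 0 ∨ T n 1) :
    ∃ R : ℕ → ℕ → ℕ → Prop, (DecIn X fun x : (ℕ × ℕ) × ℕ => R x.1.1 x.1.2 x.2) ∧
      ∀ n, ∃ a, {s | R n a s}.Infinite ∧ T n (a % 2) ∧ ∀ a', {s | R n a' s}.Infinite → a' = a := by
  obtain ⟨Q, hQ, h1⟩ := exists_sigma3 h
  -- `c` codes the parity and the witness
  let P : ℕ → ℕ → ℕ → Prop := fun n c s => Q (n, c % 2) (c / 2) s
  have cmod : ∀ {δ : Type} [Primcodable δ] {f : δ → ℕ}, Computable f →
      Computable fun x => f x % 2 := fun hf =>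
    (Primrec.nat_mod.comp Primrec.id (Primrec.const 2)).to_comp.comp hf
  have cdiv : ∀ {δ : Type} [Primcodable δ] {f : δ → ℕ}, Computable f →
      Computable fun x => f x / 2 := fun hf =>
    (Primrec.nat_div.comp Primrec.id (Primrec.const 2)).to_comp.comp hf
  have hP : DecIn X fun x : (ℕ × ℕ) × ℕ => P x.1.1 x.1.2 x.2 := by
    refine hQ.comp (f := fun x : (ℕ × ℕ) × ℕ => (((x.1.1, x.1.2 % 2), x.1.2 / 2), x.2)) ?_
    refine Computable.pair (Computable.pair (Computable.pair (by fun_prop) (cmod (by fun_prop)))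
      (cdiv (by fun_prop))) (by fun_prop)
  -- the witness `a` codes the parity, the witness `b`, and the last stage `k`
  let w : ℕ → ℕ := fun a => 2 * (a / 2).unpair.1 + a % 2
  let st : ℕ → ℕ := fun a => (a / 2).unpair.2
  have hw : Computable w := by
    have e1 : Computable fun a : ℕ => a / 2 := cdiv Computable.id
    have e2 : Computable fun a : ℕ => a % 2 := cmod Computable.id
    show Computable fun a : ℕ => 2 * (a / 2).unpair.1 + a % 2
    fun_prop
  have hst : Computable st := by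
    have e1 : Computable fun a : ℕ => a / 2 := cdiv Computable.id
    show Computable fun a : ℕ => (a / 2).unpair.2
    fun_prop
  let R : ℕ → ℕ → ℕ → Prop := fun n a s => P n (w a) s ∧
    (∀ s' < s + 1, st a ≤ s' → ∀ c < w a, ¬ P n c s') ∧
    (st a = 0 ∨ ∃ c < w a, P n c (st a - 1))
  refine ⟨R, ?_, fun n => ?_⟩
  · have cw : ∀ {δ : Type} [Primcodable δ] {f : δ → ℕ}, Computable f →
        Computable fun x => w (f x) := fun hf => hw.comp hf
    have cst : ∀ {δ : Type} [Primcodable δ] {f : δ → ℕ}, Computable f →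
        Computable fun x => st (f x) := fun hf => hst.comp hf
    refine DecIn.and ?_ (DecIn.and ?_ (DecIn.or ?_ ?_))
    · exact hP.comp (f := fun x : (ℕ × ℕ) × ℕ => ((x.1.1, w x.1.2), x.2))
        (Computable.pair (Computable.pair (by fun_prop) (cw (by fun_prop))) (by fun_prop))
    · refine DecIn.all_lt (S := fun (x : (ℕ × ℕ) × ℕ) s' => st x.1.2 ≤ s' →
        ∀ c < w x.1.2, ¬ P x.1.1 c s') (DecIn.imp ?_ ?_) (by fun_prop)
      · exact DecIn.le (cst (by fun_prop)) (by fun_prop)
      · refine DecIn.all_lt (S := fun (x : ((ℕ × ℕ) × ℕ) × ℕ) c => ¬ P x.1.1.1 c x.2) ?_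
          (cw (by fun_prop))
        exact hP.not.comp (f := fun x : (((ℕ × ℕ) × ℕ) × ℕ) × ℕ => ((x.1.1.1.1, x.2), x.1.2))
          (by fun_prop)
    · exact DecIn.eq (cst (by fun_prop)) (by fun_prop)
    · refine DecIn.ex_lt (S := fun (x : (ℕ × ℕ) × ℕ) c => P x.1.1 c (st x.1.2 - 1)) ?_
        (cw (by fun_prop))
      refine hP.comp (f := fun x : ((ℕ × ℕ) × ℕ) × ℕ => ((x.1.1.1, x.2), st x.1.1.2 - 1)) ?_
      have := cst (δ := ((ℕ × ℕ) × ℕ) × ℕ) (f := fun x => x.1.1.2) (by fun_prop)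
      fun_prop
  · -- existence
    have h2 : ∃ c, {s | P n c s}.Infinite := by
      rcases hT n with h | h
      · obtain ⟨b, hb⟩ := (h1 (n, 0)).1 h
        refine ⟨2 * b, ?_⟩
        have e1 : (2 * b) % 2 = 0 := by omega
        have e2 : (2 * b) / 2 = b := by omega
        show {s | Q (n, (2 * b) % 2) ((2 * b) / 2) s}.Infinite
        rw [e1, e2]; exact hb
      · obtain ⟨b, hb⟩ := (h1 (n, 1)).1 h
        refine ⟨2 * b + 1, ?_⟩
        have e1 : (2 * b + 1) % 2 = 1 := by omega
        have e2 : (2 * b + 1) / 2 = b := by omega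
        show {s | Q (n, (2 * b + 1) % 2) ((2 * b + 1) / 2) s}.Infinite
        rw [e1, e2]; exact hb
    classical
    let c0 := Nat.find h2
    have hc0 : {s | P n c0 s}.Infinite := Nat.find_spec h2
    have hc0' : ∀ c < c0, {s | P n c s}.Finite := fun c hc => by
      by_contra h; exact Nat.find_min h2 hc h
    -- events before
    have hfin : {s | ∃ c < c0, P n c s}.Finite := by
      have : {s | ∃ c < c0, P n c s} = ⋃ c ∈ Finset.range c0, {s | P n c s} := by
        ext s; simp
      rw [this]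
      exact Set.Finite.biUnion (Finset.finite_toSet _) fun c hc => hc0' c (by simpa using hc)
    -- the last event
    obtain ⟨k0, hk1, hk2⟩ : ∃ k0, (∀ s', k0 ≤ s' → ∀ c < c0, ¬ P n c s') ∧
        (k0 = 0 ∨ ∃ c < c0, P n c (k0 - 1)) := by
      obtain ⟨M, hM⟩ := hfin.bddAbove
      have hex : ∃ k0, ∀ s', k0 ≤ s' → ∀ c < c0, ¬ P n c s' := ⟨M + 1, fun s' hs' c hc hp => by
        have := hM (show s' ∈ {s | ∃ c < c0, P n c s} from ⟨c, hc, hp⟩)
        omega⟩
      refine ⟨Nat.find hex, Nat.find_spec hex, ?_⟩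
      rcases Nat.eq_zero_or_pos (Nat.find hex) with h0 | hpos
      · exact Or.inl h0
      · right
        have h3 := Nat.find_min hex (show Nat.find hex - 1 < Nat.find hex by omega)
        push Not at h3
        obtain ⟨s', hs', c, hc, hp⟩ := h3
        rcases Nat.lt_or_ge (Nat.find hex - 1) s' with h4 | h4
        · exact absurd hp (Nat.find_spec hex s' (by omega) c hc)
        · have : s' = Nat.find hex - 1 := by omega
          exact ⟨c, hc, this ▸ hp⟩
    have hpar : ∀ c, {s | P n c s}.Infinite → T n (c % 2) := fun c hc => (h1 (n, c % 2)).2 ⟨_, hc⟩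
    let a0 := 2 * Nat.pair (c0 / 2) k0 + c0 % 2
    have ha1 : a0 / 2 = Nat.pair (c0 / 2) k0 := by omega
    have ha2 : a0 % 2 = c0 % 2 := by omega
    have hwa : w a0 = c0 := by
      show 2 * (a0 / 2).unpair.1 + a0 % 2 = c0
      rw [ha1, ha2, Nat.unpair_pair]; simp only; omega
    have hsa : st a0 = k0 := by
      show (a0 / 2).unpair.2 = k0
      rw [ha1, Nat.unpair_pair]
    refine ⟨a0, ?_, ?_, fun a ha => ?_⟩
    · refine hc0.mono fun s hs => ⟨by rw [hwa]; exact hs, ?_, ?_⟩
      · intro s' _ hs' c hc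
        rw [hwa] at hc; rw [hsa] at hs'
        exact hk1 s' hs' c hc
      · rw [hsa, hwa]; exact hk2
    · rw [ha2]; exact hpar c0 hc0
    · have h3 : w a = c0 := by
        rcases lt_trichotomy (w a) c0 with h | h | h
        · exact absurd (ha.mono fun s hs => hs.1) (Set.not_infinite.2 (hc0' _ h))
        · exact h
        · exfalso
          obtain ⟨s1, hs1, hs1'⟩ := hc0.exists_gt (st a)
          obtain ⟨s2, hs2, hs2'⟩ := ha.exists_gt s1
          exact hs2.2.1 s1 (by omega) (le_of_lt hs1') c0 h hs1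
      have h4 : st a = k0 := by
        obtain ⟨s, hs⟩ := ha.nonempty
        rcases lt_trichotomy (st a) k0 with h | h | h
        · exfalso
          rcases hk2 with h5 | ⟨c, hc, hp⟩
          · omega
          · obtain ⟨s2, hs2, hs2'⟩ := ha.exists_gt k0
            exact hs2.2.1 (k0 - 1) (by omega) (by omega) c (by rw [h3]; exact hc) hp
        · exact h
        · exfalso
          rcases hs.2.2 with h5 | ⟨c, hc, hp⟩
          · omega
          · rw [h3] at hc
            exact hk1 _ (by omega) c hc hp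
      have h5 : a % 2 = c0 % 2 := by
        have : w a % 2 = a % 2 := by
          show (2 * (a / 2).unpair.1 + a % 2) % 2 = a % 2
          omega
        rw [← this, h3]
      have h6 : (a / 2).unpair.1 = c0 / 2 := by
        have : w a / 2 = (a / 2).unpair.1 := by
          show (2 * (a / 2).unpair.1 + a % 2) / 2 = (a / 2).unpair.1
          omega
        rw [← this, h3]
      have h7 : a / 2 = Nat.pair (c0 / 2) k0 := by
        rw [← Nat.pair_unpair (a / 2), h6]
        have : (a / 2).unpair.2 = k0 := h4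
        rw [this]
      omega

end norm

end Run7.h872.LS
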