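import Pool.Agent.Run7.h872.LS.Canon
import Pool.Agent.Run7.h872.LS.Norm
import Pool.Agent.Run7.h872.LS.Fiber

/-!
Presentations of the canonical order which are decidable in `X`.
-/

namespace Run7.h872.LS

open Encodable Pool.Agent.Helper578.JD Pool.Agent.Helper578.JD.Oracle
open Pool.Agent.Helper578.JD.Defs Pool.Agent.Helper578.JD.RE

/-- Codes of the integers. -/
def zz (w : ℕ) : ℤ := if w % 2 = 0 then ((w / 2 : ℕ) : ℤ) else -(((w / 2 : ℕ) : ℤ) + 1)

theorem zz_inj {w w' : ℕ} (h : zz w = zz w') : w = w' := by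
  unfold zz at h
  split_ifs at h <;> omega

theorem zz_surj (z : ℤ) : ∃ w, zz w = z := by
  by_cases h : 0 ≤ z
  · refine ⟨2 * z.toNat, ?_⟩
    unfold zz
    rw [if_pos (by omega)]
    omega
  · refine ⟨2 * (-z - 1).toNat + 1, ?_⟩
    unfold zz
    rw [if_neg (by omega)]
    omega

/-- Comparison of integers through their codes. -/
def zlt (w w' : ℕ) : Prop :=
  (¬ w % 2 = 0 ∧ w' % 2 = 0) ∨ ((w % 2 = 0 ∧ w' % 2 = 0) ∧ w < w') ∨
    ((¬ w % 2 = 0 ∧ ¬ w' % 2 = 0) ∧ w' < w)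

theorem zlt_iff (w w' : ℕ) : zlt w w' ↔ zz w < zz w' := by
  unfold zlt zz
  split_ifs <;> omega

theorem two_pow_comp : Computable (fun n : ℕ => 2 ^ n) := by
  have h : Computable (fun n : ℕ => Nat.rec (motive := fun _ => ℕ) 1 (fun _ y => 2 * y) n) := by
    refine Computable.nat_rec (f := fun n : ℕ => n) (g := fun _ => 1)
      (h := fun _ y => 2 * y.2) Computable.id (Computable.const 1) ?_
    exact (cmul (Computable.const 2) (Computable.snd.comp Computable.snd)).to₂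
  refine h.of_eq (fun n => ?_)
  induction n with
  | zero => rfl
  | succ n ih =>
    simp only [ih, pow_succ]
    ring

section comp

variable {δ : Type} [Primcodable δ] {X : Set ℕ}

theorem cmod2 {f : δ → ℕ} (hf : Computable f) : Computable fun x => f x % 2 :=
  (Primrec.nat_mod.comp Primrec.id (Primrec.const 2)).to_comp.comp hf

theorem cdiv2 {f : δ → ℕ} (hf : Computable f) : Computable fun x => f x / 2 :=
  (Primrec.nat_div.comp Primrec.id (Primrec.const 2)).to_comp.comp hf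

theorem cpow2 {f : δ → ℕ} (hf : Computable f) : Computable fun x => 2 ^ f x :=
  two_pow_comp.comp hf

variable {c : δ → ℕ} {V : δ → ℕ → Prop}

theorem dec_noev (hV : DecIn X fun x : δ × ℕ => V x.1 x.2) {f g : δ → ℕ} (hf : Computable f)
    (hg : Computable g) : DecIn X fun x => ∀ s < f x, g x ≤ s → ¬ V x s := by
  refine DecIn.all_lt (S := fun x s => g x ≤ s → ¬ V x s) (DecIn.imp ?_ hV.not) hf
  exact DecIn.le (by fun_prop) (by fun_prop)

theorem dec_ptlt (hc : Computable c) (hV : DecIn X fun x : δ × ℕ => V x.1 x.2) {f g : δ → ℕ}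
    (hf : Computable f) (hg : Computable g) :
    DecIn X fun x => ptlt (c x) {s | V x s} (f x) (g x) := by
  have h : DecIn X fun x => (f x < g x ∧ (f x < c x ∨ ∀ s < g x, f x ≤ s → ¬ V x s)) ∨
      (g x < f x ∧ ¬ (g x < c x ∨ ∀ s < f x, g x ≤ s → ¬ V x s)) :=
    DecIn.or ((DecIn.lt hf hg).and ((DecIn.lt hf hc).or (dec_noev hV hg hf)))
      ((DecIn.lt hg hf).and ((DecIn.lt hg hc).or (dec_noev hV hf hg)).not)
  exact h

theorem dec_jlt (hc : Computable c) (hV : DecIn X fun x : δ × ℕ => V x.1 x.2) {f g : δ → ℕ}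
    (hf : Computable f) (hg : Computable g) :
    DecIn X fun x => jlt (c x) {s | V x s} (f x) (g x) := by
  have h : DecIn X fun x => (1 ≤ f x ∧ g x = 0) ∨ (1 ≤ f x ∧ 1 ≤ g x ∧
      ptlt (c x) {s | V x s} (f x - 1) (g x - 1)) :=
    DecIn.or ((DecIn.le (by fun_prop) hf).and (DecIn.eq hg (by fun_prop)))
      ((DecIn.le (by fun_prop) hf).and ((DecIn.le (by fun_prop) hg).and
        (dec_ptlt hc hV (by fun_prop) (by fun_prop))))
  exact h

theorem dec_ED (hc : Computable c) (hV : DecIn X fun x : δ × ℕ => V x.1 x.2) {y : δ → Cd}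
    (hy : Computable y) : DecIn X fun x => ED (c x) {s | V x s} (y x) := by
  have hp : Computable fun x => 2 ^ (y x).2.2.2 := cpow2 (by fun_prop)
  have hval : DecIn X fun x => 2 * (y x).2.2.1 + 1 ≤ 2 ^ (y x).2.2.2 :=
    DecIn.le (by fun_prop) hp
  have h : DecIn X fun x =>
      ((y x).1 = 0 ∧ (y x).2.1 = 0 ∧ 1 ≤ (y x).2.2.2 ∧ 2 * (y x).2.2.1 + 1 ≤ 2 ^ (y x).2.2.2) ∨
      (1 ≤ (y x).1 ∧ (((y x).2.1 = 0 ∧ (y x).2.2.1 = 0 ∧ (y x).2.2.2 = 0) ∨
        (1 ≤ (y x).2.2.2 ∧ 2 * (y x).2.2.1 + 1 ≤ 2 ^ (y x).2.2.2 ∧ c x ≤ (y x).1 - 1 ∧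
          (y x).1 - 1 ≤ (y x).2.1 ∧ V x ((y x).2.1) ∧
          ∀ t < (y x).2.1, (y x).1 - 1 ≤ t → ¬ V x t))) := by
    refine DecIn.or ?_ (DecIn.and ?_ (DecIn.or ?_ ?_))
    · exact (DecIn.eq (by fun_prop) (by fun_prop)).and ((DecIn.eq (by fun_prop)
        (by fun_prop)).and ((DecIn.le (by fun_prop) (by fun_prop)).and hval))
    · exact DecIn.le (by fun_prop) (by fun_prop)
    · exact (DecIn.eq (by fun_prop) (by fun_prop)).and ((DecIn.eq (by fun_prop)
        (by fun_prop)).and (DecIn.eq (by fun_prop) (by fun_prop)))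
    · refine (DecIn.le (by fun_prop) (by fun_prop)).and (hval.and ((DecIn.le hc
        (by fun_prop)).and ((DecIn.le (by fun_prop) (by fun_prop)).and (DecIn.and ?_ ?_))))
      · exact hV.comp (f := fun x : δ => (x, (y x).2.1)) (by fun_prop)
      · exact dec_noev hV (by fun_prop) (by fun_prop)
  exact h

theorem dec_elt (hc : Computable c) (hV : DecIn X fun x : δ × ℕ => V x.1 x.2) {y y' : δ → Cd}
    (hy : Computable y) (hy' : Computable y') :
    DecIn X fun x => elt (c x) {s | V x s} (y x) (y' x) := by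
  have hp : Computable fun x => 2 ^ (y x).2.2.2 := cpow2 (by fun_prop)
  have hp' : Computable fun x => 2 ^ (y' x).2.2.2 := cpow2 (by fun_prop)
  have h : DecIn X fun x => jlt (c x) {s | V x s} (y x).1 (y' x).1 ∨ ((y x).1 = (y' x).1 ∧
      (2 * (y x).2.2.1 + 1) * 2 ^ (y' x).2.2.2 < (2 * (y' x).2.2.1 + 1) * 2 ^ (y x).2.2.2) :=
    (dec_jlt hc hV (by fun_prop) (by fun_prop)).or ((DecIn.eq (by fun_prop) (by fun_prop)).and
      (DecIn.lt (by fun_prop) (by fun_prop)))
  exact h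

end comp

/-- Every set `X` whose double jump enumerates the graph of `χ : ℕ → {0, 1}` computes the order
with blocks of lengths `2 n + 2 + χ n`, and there is a copy of exactly the degree of `X`. -/
theorem present {X : Set ℕ} {χ : ℕ → ℕ} (hχ : ∀ n, χ n = 0 ∨ χ n = 1)
    (h : REIn (jump (jump X)) fun x : ℕ × ℕ => χ x.1 = x.2) :
    ∃ (r : ℕ → ℕ → Prop) (e : LB (fun n => 2 * n + 2 + χ n) ≃ ℕ),
      (∀ a b, a < b ↔ r (e a) (e b)) ∧ Red (graph r) X ∧ Red X (graph r) := by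
  obtain ⟨R, hR, hwit⟩ := exists_unique_witness (T := fun n j => χ n = j) h hχ
  choose a ha1 ha2 ha3 using hwit
  let Ev : ℕ → ℕ → ℕ → Prop := fun n w s => w % 2 = 0 ∧ R n (w / 2) s
  let cc : ℕ → ℕ → ℕ := fun n w => 2 * n + 2 + (w / 2) % 2
  have hEv : DecIn X fun x : (ℕ × ℕ) × ℕ => Ev x.1.1 x.1.2 x.2 := by
    refine DecIn.and (DecIn.eq (cmod2 (by fun_prop)) (by fun_prop)) ?_
    refine hR.comp (f := fun x : (ℕ × ℕ) × ℕ => ((x.1.1, x.1.2 / 2), x.2)) ?_
    exact Computable.pair (Computable.pair (by fun_prop) (cdiv2 (by fun_prop))) (by fun_prop)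
  have hcc : Computable fun x : ℕ × ℕ => cc x.1 x.2 := by
    have h1 : Computable fun x : ℕ × ℕ => (x.2 / 2) % 2 := cmod2 (cdiv2 (by fun_prop))
    show Computable fun x : ℕ × ℕ => 2 * x.1 + 2 + (x.2 / 2) % 2
    fun_prop
  have hinf : ∀ n w, {s | Ev n w s}.Infinite ↔ zz w = a n := by
    intro n w
    constructor
    · intro h1
      obtain ⟨s, hs, -⟩ := h1.nonempty
      have h2 : {s | R n (w / 2) s}.Infinite := h1.mono fun s hs => hs.2
      have h3 := ha3 n _ h2
      unfold zz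
      rw [if_pos hs]
      exact_mod_cast h3
    · intro h1
      have h2 : w % 2 = 0 ∧ w / 2 = a n := by
        unfold zz at h1
        split_ifs at h1 with h3
        · exact ⟨h3, by exact_mod_cast h1⟩
        · omega
      refine (ha1 n).mono fun s hs => ⟨h2.1, ?_⟩
      rw [h2.2]; exact hs
  have hfib := fun n w => fiber (cc n w) {s | Ev n w s}
  choose φ hφ1 hφ2 hφ3 using hfib
  have hφinj : ∀ n w x y, ED (cc n w) {s | Ev n w s} x → ED (cc n w) {s | Ev n w s} y →
      φ n w x = φ n w y → x = y := by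
    intro n w x y hx hy hxy
    apply kap_inj hx hy
    rcases lt_trichotomy (kap (cc n w) {s | Ev n w s} x) (kap (cc n w) {s | Ev n w s} y)
      with h1 | h1 | h1
    · rw [← elt_iff, hφ3 n w x y hx hy, hxy] at h1
      exact absurd h1 (lt_irrefl _)
    · exact h1
    · rw [← elt_iff, hφ3 n w y x hy hx, hxy] at h1
      exact absurd h1 (lt_irrefl _)
  -- the presentation
  let Dm : (ℕ × ℕ) × Cd → Prop := fun x => ED (cc x.1.1 x.1.2) {s | Ev x.1.1 x.1.2 s} x.2
  have hDm : DecIn X Dm := by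
    refine dec_ED (δ := (ℕ × ℕ) × Cd) (c := fun x => cc x.1.1 x.1.2)
      (V := fun x s => Ev x.1.1 x.1.2 s) (y := fun x => x.2) (hcc.comp Computable.fst) ?_
      (by fun_prop)
    exact hEv.comp (f := fun x : ((ℕ × ℕ) × Cd) × ℕ => (x.1.1, x.2)) (by fun_prop)
  let lt : (ℕ × ℕ) × Cd → (ℕ × ℕ) × Cd → Prop := fun x y => x.1.1 < y.1.1 ∨ (x.1.1 = y.1.1 ∧
    (zlt x.1.2 y.1.2 ∨ (x.1.2 = y.1.2 ∧
      elt (cc x.1.1 x.1.2) {s | Ev x.1.1 x.1.2 s} x.2 y.2)))
  have hlt : DecIn X fun x : ((ℕ × ℕ) × Cd) × ((ℕ × ℕ) × Cd) => lt x.1 x.2 := by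
    refine DecIn.or (DecIn.lt (by fun_prop) (by fun_prop)) (DecIn.and (DecIn.eq (by fun_prop)
      (by fun_prop)) (DecIn.or ?_ (DecIn.and (DecIn.eq (by fun_prop) (by fun_prop)) ?_)))
    · have e1 : DecIn X fun x : ((ℕ × ℕ) × Cd) × ((ℕ × ℕ) × Cd) => x.1.1.2 % 2 = 0 :=
        DecIn.eq (cmod2 (by fun_prop)) (by fun_prop)
      have e2 : DecIn X fun x : ((ℕ × ℕ) × Cd) × ((ℕ × ℕ) × Cd) => x.2.1.2 % 2 = 0 :=
        DecIn.eq (cmod2 (by fun_prop)) (by fun_prop)
      exact (e1.not.and e2).or (((e1.and e2).and (DecIn.lt (by fun_prop) (by fun_prop))).or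
        ((e1.not.and e2.not).and (DecIn.lt (by fun_prop) (by fun_prop))))
    · refine dec_elt (δ := ((ℕ × ℕ) × Cd) × ((ℕ × ℕ) × Cd)) (c := fun x => cc x.1.1.1 x.1.1.2)
        (V := fun x s => Ev x.1.1.1 x.1.1.2 s) (y := fun x => x.1.2) (y' := fun x => x.2.2)
        (hcc.comp (Computable.fst.comp Computable.fst)) ?_ (by fun_prop) (by fun_prop)
      exact hEv.comp (f := fun x : (((ℕ × ℕ) × Cd) × ((ℕ × ℕ) × Cd)) × ℕ => (x.1.1.1, x.2))
        (by fun_prop)
  let b : ℕ → ℕ := fun n => 2 * n + 2 + χ n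
  let F : {x // Dm x} → LB b := fun x => ⟨mk x.1.1.1 (zz x.1.1.2 - a x.1.1.1)
    (φ x.1.1.1 x.1.1.2 x.1.2), by
      obtain ⟨⟨⟨n, w⟩, y⟩, hx⟩ := x
      intro n' z' k hk hz
      simp only at hk
      rw [mk_inj] at hk
      obtain ⟨rfl, rfl, hk⟩ := hk
      have hzw : zz w = a n := by omega
      have h1 := hφ1 n w y hx k hk ((hinf n w).2 hzw)
      have h2 : w / 2 = a n := by
        unfold zz at hzw
        split_ifs at hzw with h3
        · exact_mod_cast hzw
        · omega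
      have h3 : χ n = a n % 2 := ha2 n
      show k < 2 * n + 2 + χ n
      rw [h3, ← h2]
      exact h1⟩
  have hFlt : ∀ x y : {x // Dm x}, F x < F y ↔ lt x.1 y.1 := by
    rintro ⟨⟨⟨n, w⟩, x⟩, hx⟩ ⟨⟨⟨n', w'⟩, y⟩, hy⟩
    show mk n (zz w - a n) (φ n w x) < mk n' (zz w' - a n') (φ n' w' y) ↔ n < n' ∨ (n = n' ∧
      (zlt w w' ∨ (w = w' ∧ elt (cc n w) {s | Ev n w s} x y)))
    rw [mk_lt]
    by_cases hn : n = n'
    · subst hn
      by_cases hw : w = w'
      · subst hw
        have h1 := hφ3 n w x y hx hy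
        rw [zlt_iff, h1]
        constructor
        · rintro (h | ⟨-, h | ⟨-, h⟩⟩)
          · exact Or.inl h
          · omega
          · exact Or.inr ⟨rfl, Or.inr ⟨rfl, h⟩⟩
        · rintro (h | ⟨-, h | ⟨-, h⟩⟩)
          · exact Or.inl h
          · omega
          · exact Or.inr ⟨rfl, Or.inr ⟨rfl, h⟩⟩
      · have hw' : zz w ≠ zz w' := fun h => hw (zz_inj h)
        rw [zlt_iff]
        constructor
        · rintro (h | ⟨-, h | ⟨h, -⟩⟩)
          · exact Or.inl h
          · exact Or.inr ⟨rfl, Or.inl (by omega)⟩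
          · exact absurd (by omega) hw'
        · rintro (h | ⟨-, h | ⟨h, -⟩⟩)
          · exact Or.inl h
          · exact Or.inr ⟨rfl, Or.inl (by omega)⟩
          · exact absurd h hw
    · constructor
      · rintro (h | ⟨h, -⟩)
        · exact Or.inl h
        · exact absurd h hn
      · rintro (h | ⟨h, -⟩)
        · exact Or.inl h
        · exact absurd h hn
  have hFbij : Function.Bijective F := by
    constructor
    · rintro ⟨⟨⟨n, w⟩, x⟩, hx⟩ ⟨⟨⟨n', w'⟩, y⟩, hy⟩ hxy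
      have h1 := congrArg Subtype.val hxy
      have h2 : mk n (zz w - a n) (φ n w x) = mk n' (zz w' - a n') (φ n' w' y) := h1
      rw [mk_inj] at h2
      obtain ⟨rfl, hz, hφ⟩ := h2
      have hw : w = w' := zz_inj (by omega)
      subst hw
      have := hφinj n w x y hx hy hφ
      subst this
      rfl
    · rintro ⟨y, hy⟩
      obtain ⟨n, z, u, rfl⟩ := mk_surj y
      obtain ⟨w, hw⟩ := zz_surj (z + a n)
      obtain ⟨x, hx, hxu⟩ := hφ2 n w u (fun k hk hV => by
        have h1 := (hinf n w).1 hV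
        have hz : z = 0 := by omega
        have h2 : k < 2 * n + 2 + χ n := hy n z k (by rw [hk]; rfl) hz
        have h3 : w / 2 = a n := by
          unfold zz at h1
          split_ifs at h1 with h3
          · exact_mod_cast h1
          · omega
        have h4 : χ n = a n % 2 := ha2 n
        rw [h4, ← h3] at h2
        exact h2)
      refine ⟨⟨((n, w), x), hx⟩, Subtype.ext ?_⟩
      show mk n (zz w - a n) (φ n w x) = mk n z u
      rw [mk_inj]
      exact ⟨rfl, by omega, hxu⟩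
  let e : {x // Dm x} ≃ LB b := Equiv.ofBijective F hFbij
  refine exists_copy Dm hDm lt hlt e.symm (fun p q => ?_) ((0, 0), (0, 0, 0, 0))
  have h1 := hFlt (e.symm p) (e.symm q)
  rw [← h1]
  show p < q ↔ e (e.symm p) < e (e.symm q)
  rw [Equiv.apply_symm_apply, Equiv.apply_symm_apply]

end Run7.h872.LS
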