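import Pool.Agent.Run7.h872.LS.Decode
import Pool.Agent.Run7.h872.LS.Glue

/-!
A linear order with copies in all high degrees and no copy of low degree.
-/

namespace Run7.h872.LS

open Encodable Pool.Agent.Helper578.JD Pool.Agent.Helper578.JD.Oracle
open Pool.Agent.Helper578.JD.Defs Pool.Agent.Helper578.JD.RE

theorem deg_eq {A B : Set ℕ} : deg A = deg B ↔ Red A B ∧ Red B A := by
  constructor
  · intro h
    have h1 : TuringEquivalent (chi A) (chi B) := Quotient.exact h
    exact ⟨h1.1, h1.2⟩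
  · intro h
    exact Quotient.sound (show TuringEquivalent (chi A) (chi B) from ⟨h.1, h.2⟩)

open Classical in
/-- `1` off the triple jump of the empty set, `0` on it. -/
noncomputable def chi3 (n : ℕ) : ℕ := if n ∈ jump (jump (jump ∅)) then 0 else 1

theorem chi3_cases (n : ℕ) : chi3 n = 0 ∨ chi3 n = 1 := by
  unfold chi3; split_ifs <;> simp

theorem chi3_one {n : ℕ} : chi3 n = 1 ↔ n ∉ jump (jump (jump ∅)) := by
  unfold chi3; split_ifs with h <;> simp [h]

/-- The order: blocks of length `2 n + 2` or `2 n + 3`. -/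
abbrev Ord : Type := LB fun n => 2 * n + 2 + chi3 n

theorem high_part {A : Set ℕ} (h : Red (jump (jump (jump ∅))) (jump (jump A))) :
    ∃ r : ℕ → ℕ → Prop, IsCopyOn Ord Set.univ r ∧ deg A = deg (graph r) := by
  have h1 : REIn (jump (jump A)) fun x : ℕ × ℕ => chi3 x.1 = x.2 := by
    have h2 : DecIn (jump (jump A)) fun n : ℕ => n ∈ jump (jump (jump ∅)) := Red_iff_DecIn.1 h
    have h3 : DecIn (jump (jump A)) fun x : ℕ × ℕ => x.1 ∈ jump (jump (jump ∅)) :=
      h2.comp (f := fun x : ℕ × ℕ => x.1) (by fun_prop)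
    have h4 : DecIn (jump (jump A)) fun x : ℕ × ℕ => (x.1 ∈ jump (jump (jump ∅)) ∧ x.2 = 0) ∨
        (¬ x.1 ∈ jump (jump (jump ∅)) ∧ x.2 = 1) :=
      (h3.and (DecIn.eq (by fun_prop) (by fun_prop))).or
        (h3.not.and (DecIn.eq (by fun_prop) (by fun_prop)))
    refine h4.1.of_eq fun x => ?_
    unfold chi3
    split_ifs with h5
    · simp only [h5, true_and, not_true_eq_false, false_and, or_false]; exact eq_comm
    · simp only [h5, false_and, not_false_eq_true, true_and, false_or]; exact eq_comm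
  obtain ⟨r, e, h2, h3, h4⟩ := present chi3_cases h1
  refine ⟨r, ⟨fun x y _ => ⟨Set.mem_univ _, Set.mem_univ _⟩, e.trans (Equiv.Set.univ ℕ).symm,
    fun a b => ?_⟩, deg_eq.2 ⟨h4, h3⟩⟩
  exact h2 a b

theorem low_part {D : Set ℕ} {r : ℕ → ℕ → Prop} (h : IsCopyOn Ord D r) :
    ¬ Red (jump (graph r)) (jump ∅) := by
  intro h1
  have h2 : Red (jump (jump (graph r))) (jump (jump ∅)) := jump_mono h1
  have h3 : REIn (jump (jump (graph r))) fun n : ℕ => rblk r (2 * n + 3) :=
    (rblk_REIn r).comp (f := fun n : ℕ => 2 * n + 3) (by fun_prop)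
  have h4 : REIn (jump (jump ∅)) fun n : ℕ => rblk r (2 * n + 3) := reMono h3 h2
  refine not_REIn_compl_jump (jump (jump ∅)) (h4.of_eq fun n => ?_)
  rw [rblk_iff h (by omega), hasBlock_iff (by omega), ← chi3_one]
  constructor
  · rintro ⟨n', hn'⟩
    rcases chi3_cases n' with h5 | h5
    · omega
    · have : n' = n := by omega
      rw [← this]; exact h5
  · intro h5
    exact ⟨n, by rw [h5]⟩

end Run7.h872.LS
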