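import Pool.Agent.Run7.h872.LS.Dec

/-!
Presentations: an infinite linear order with a presentation decidable in `X` has a copy with
universe `ℕ` whose order relation has exactly the Turing degree of `X`.
-/

namespace Run7.h872.LS

open Encodable Pool.Agent.Helper578.JD Pool.Agent.Helper578.JD.Oracle
open Pool.Agent.Helper578.JD.Defs Pool.Agent.Helper578.JD.RE

/-- The set of codes of the pairs related by `r`. -/
def graph (r : ℕ → ℕ → Prop) : Set ℕ := {n | r n.unpair.1 n.unpair.2}

theorem graph_DecIn {X : Set ℕ} {r : ℕ → ℕ → Prop} (h : DecIn X fun x : ℕ × ℕ => r x.1 x.2) :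
    Red (graph r) X :=
  Red_iff_DecIn.2 (h.comp (f := fun n : ℕ => n.unpair) (by fun_prop))

theorem DecIn_graph {r : ℕ → ℕ → Prop} : DecIn (graph r) fun x : ℕ × ℕ => r x.1 x.2 := by
  refine (DecIn.mem (A := graph r) (f := fun x : ℕ × ℕ => Nat.pair x.1 x.2) (by fun_prop)).of_eq
    fun x => ?_
  simp [graph]

/-- If the graph of a function is enumerable in `X`, it is decidable in `X`. -/
theorem DecIn_of_fun {α β : Type} [Primcodable α] [Primcodable β] {X : Set ℕ} {f : α → β}
    (h : REIn X fun x : α × β => f x.1 = x.2) : DecIn X fun x : α × β => f x.1 = x.2 := by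
  refine ⟨h, ?_⟩
  have : REIn X fun x : α × β => ∃ y, f x.1 = y ∧ y ≠ x.2 := by
    refine REIn.ex (S := fun (x : α × β) y => f x.1 = y ∧ y ≠ x.2) (REIn.and ?_ ?_)
    · exact h.comp (f := fun x : (α × β) × β => (x.1.1, x.2)) (by fun_prop)
    · exact REIn.of_re (RE.ne (by fun_prop) (by fun_prop))
  refine this.of_eq fun x => ?_
  constructor
  · rintro ⟨y, rfl, h⟩; exact h
  · intro h; exact ⟨_, rfl, h⟩

/-- Substituting a function with graph decidable in `X`. -/
theorem DecIn.subst {α β : Type} [Primcodable α] [Primcodable β] {X : Set ℕ} {f : α → β}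
    (hf : DecIn X fun x : α × β => f x.1 = x.2) {S : β → Prop} (hS : DecIn X S) :
    DecIn X fun a => S (f a) := by
  constructor
  · refine (REIn.ex (S := fun (a : α) y => f a = y ∧ S y) (hf.1.and (hS.1.comp (by fun_prop)))).of_eq
      fun a => ?_
    constructor
    · rintro ⟨y, rfl, h⟩; exact h
    · intro h; exact ⟨_, rfl, h⟩
  · refine (REIn.ex (S := fun (a : α) y => f a = y ∧ ¬ S y)
      (hf.1.and (hS.2.comp (by fun_prop)))).of_eq fun a => ?_
    constructor
    · rintro ⟨y, rfl, h⟩; exact h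
    · intro h; exact ⟨_, rfl, h⟩

/-- The graph of the increasing enumeration of an infinite decidable set. -/
theorem enum_REIn {X : Set ℕ} {D : Set ℕ} [Infinite D] (hD : DecIn X (· ∈ D)) (f : ℕ ≃o D) :
    REIn X fun x : ℕ × ℕ => ((f x.1 : D) : ℕ) = x.2 := by
  have h1 : REIn X fun x : ℕ × ℕ => ∃ l : List ℕ, l.Nodup ∧ l.length = x.1 + 1 ∧
      (∀ t ∈ l, t ∈ D ∧ t < x.2 + 1) ∧ x.2 ∈ D ∧ ∀ t < x.2 + 1, t ∉ D ∨ t ∈ l := by
    refine REIn.ex (S := fun (x : ℕ × ℕ) (l : List ℕ) => l.Nodup ∧ l.length = x.1 + 1 ∧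
      (∀ t ∈ l, t ∈ D ∧ t < x.2 + 1) ∧ x.2 ∈ D ∧ ∀ t < x.2 + 1, t ∉ D ∨ t ∈ l) ?_
    refine REIn.and (REIn.of_re (cp_nodup (by fun_prop))) (REIn.and
      (REIn.of_re (RE.eq (by fun_prop) (by fun_prop))) (REIn.and ?_ (REIn.and ?_ ?_)))
    · refine REIn.all_mem (S := fun (x : (ℕ × ℕ) × List ℕ) t => t ∈ D ∧ t < x.1.2 + 1)
        (l := fun x => x.2) (REIn.and (hD.1.comp (by fun_prop)) (REIn.of_re (RE.lt ?_ ?_))) ?_ <;>
        fun_prop
    · exact hD.1.comp (f := fun x : (ℕ × ℕ) × List ℕ => x.1.2) (by fun_prop)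
    · refine REIn.all_lt (S := fun (x : (ℕ × ℕ) × List ℕ) t => t ∉ D ∨ t ∈ x.2)
        (REIn.or (hD.2.comp (by fun_prop)) (REIn.of_re (RE.mem_list (by fun_prop) (by fun_prop))))
        (by fun_prop)
  refine h1.of_eq fun x => ?_
  obtain ⟨k, y⟩ := x
  simp only
  -- the first `k + 1` elements
  have hinj : Function.Injective fun i : ℕ => ((f i : D) : ℕ) := fun i j h =>
    f.injective (Subtype.ext h)
  have hcount : ∀ k, (((Finset.range (k + 1)).image fun i => ((f i : D) : ℕ)) : Finset ℕ).card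
      = k + 1 := fun k => by
    rw [Finset.card_image_of_injective _ hinj, Finset.card_range]
  have hmem : ∀ k t, t ∈ D ∧ t < ((f k : D) : ℕ) + 1 ↔
      t ∈ (Finset.range (k + 1)).image fun i => ((f i : D) : ℕ) := by
    intro k t
    constructor
    · rintro ⟨h1, h2⟩
      refine Finset.mem_image.2 ⟨f.symm ⟨t, h1⟩, ?_, by simp⟩
      rw [Finset.mem_range]
      have : (⟨t, h1⟩ : D) ≤ f k := Nat.lt_succ_iff.1 h2
      have h3 : f.symm ⟨t, h1⟩ ≤ k := by
        rw [OrderIso.symm_apply_le]; exact this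
      omega
    · intro h
      obtain ⟨i, hi, rfl⟩ := Finset.mem_image.1 h
      refine ⟨(f i).2, ?_⟩
      have h3 : f i ≤ f k := f.monotone (by have := Finset.mem_range.1 hi; omega)
      have h4 : ((f i : D) : ℕ) ≤ ((f k : D) : ℕ) := h3
      omega
  constructor
  · rintro ⟨l, h1, h2, h3, h4, h5⟩
    have h6 : l.toFinset.card = k + 1 := by rw [List.toFinset_card_of_nodup h1, h2]
    obtain ⟨k', hk'⟩ : ∃ k', ((f k' : D) : ℕ) = y := ⟨f.symm ⟨y, h4⟩, by simp⟩
    have h7 : l.toFinset = (Finset.range (k' + 1)).image fun i => ((f i : D) : ℕ) := by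
      ext t
      rw [List.mem_toFinset, ← hmem, hk']
      constructor
      · exact fun h => h3 t h
      · rintro ⟨h8, h9⟩
        rcases h5 t h9 with h | h
        · exact absurd h8 h
        · exact h
    rw [h7, hcount] at h6
    have : k' = k := by omega
    rw [← this]; exact hk'
  · intro h
    refine ⟨(List.range (k + 1)).map fun i => ((f i : D) : ℕ), ?_, by simp, ?_, ?_, ?_⟩
    · exact List.Nodup.map hinj List.nodup_range
    · intro t ht
      have h8 : t ∈ (Finset.range (k + 1)).image fun i => ((f i : D) : ℕ) := by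
        simp only [List.mem_map, List.mem_range] at ht
        simpa using ht
      have := (hmem k t).2 h8
      rwa [h] at this
    · rw [← h]; exact (f k).2
    · intro t ht
      by_cases h9 : t ∈ D
      · right
        have := (hmem k t).1 ⟨h9, by rw [h]; exact ht⟩
        simp only [List.mem_map, List.mem_range]
        simpa using this
      · exact Or.inl h9

/-- The copy of exact degree `X`. -/
theorem exists_exact {X : Set ℕ} {L : Type} [LinearOrder L] (e : L ≃ ℕ) (r : ℕ → ℕ → Prop)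
    (her : ∀ a b, a < b ↔ r (e a) (e b)) (hr : DecIn X fun x : ℕ × ℕ => r x.1 x.2) :
    ∃ (r' : ℕ → ℕ → Prop) (e' : L ≃ ℕ), (∀ a b, a < b ↔ r' (e' a) (e' b)) ∧
      Red (graph r') X ∧ Red X (graph r') := by
  classical
  let cnd : ℕ → Prop := fun m => r (2 * m) (2 * m + 1) ↔ m ∈ X
  have hcnd : DecIn X cnd :=
    DecIn.iff (hr.comp (f := fun m : ℕ => (2 * m, 2 * m + 1)) (by fun_prop))
      (DecIn.mem (by fun_prop))
  let p : ℕ → ℕ := fun k => if cnd (k / 2) then k else if k % 2 = 0 then k + 1 else k - 1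
  have cmod : Computable fun x : ℕ => x % 2 :=
    (Primrec.nat_mod.comp Primrec.id (Primrec.const 2)).to_comp
  have cdiv : Computable fun x : ℕ => x / 2 :=
    (Primrec.nat_div.comp Primrec.id (Primrec.const 2)).to_comp
  have hp : DecIn X fun x : ℕ × ℕ => p x.1 = x.2 := by
    have h1 : DecIn X fun x : ℕ × ℕ => (cnd (x.1 / 2) ∧ x.1 = x.2) ∨
        (¬ cnd (x.1 / 2) ∧ ((x.1 % 2 = 0 ∧ x.1 + 1 = x.2) ∨ (¬ x.1 % 2 = 0 ∧ x.1 - 1 = x.2))) := by
      have c1 : DecIn X fun x : ℕ × ℕ => cnd (x.1 / 2) :=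
        hcnd.comp (cdiv.comp Computable.fst)
      have c2 : DecIn X fun x : ℕ × ℕ => x.1 % 2 = 0 :=
        DecIn.eq (cmod.comp Computable.fst) (by fun_prop)
      refine DecIn.or (c1.and (DecIn.eq (by fun_prop) (by fun_prop))) (c1.not.and
        (DecIn.or (c2.and (DecIn.eq (by fun_prop) (by fun_prop))) (c2.not.and
        (DecIn.eq (by fun_prop) (by fun_prop)))))
    refine h1.of_eq fun x => ?_
    by_cases h2 : cnd (x.1 / 2)
    · simp [p, h2]
    · by_cases h3 : x.1 % 2 = 0
      · simp [p, h2, h3]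
      · simp [p, h2, h3]
  have hpp : ∀ k, p (p k) = k := by
    intro k
    by_cases h2 : cnd (k / 2)
    · simp [p, h2]
    · by_cases h3 : k % 2 = 0
      · have h4 : (k + 1) / 2 = k / 2 := by omega
        have h5 : (k + 1) % 2 ≠ 0 := by omega
        simp [p, h2, h3, h4, h5]
      · have h4 : (k - 1) / 2 = k / 2 := by omega
        have h5 : (k - 1) % 2 = 0 := by omega
        have h6 : k - 1 + 1 = k := by omega
        simp [p, h2, h3, h4, h5, h6]
  let P : ℕ ≃ ℕ := ⟨p, p, hpp, hpp⟩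
  let r' : ℕ → ℕ → Prop := fun x y => r (p x) (p y)
  have hr' : DecIn X fun x : ℕ × ℕ => r' x.1 x.2 := by
    have h1 : DecIn X fun x : (ℕ × ℕ) × (ℕ × ℕ) => (p x.1.1, p x.1.2) = x.2 := by
      have h2 : DecIn X fun x : (ℕ × ℕ) × (ℕ × ℕ) => p x.1.1 = x.2.1 ∧ p x.1.2 = x.2.2 :=
        (hp.comp (f := fun x : (ℕ × ℕ) × (ℕ × ℕ) => (x.1.1, x.2.1)) (by fun_prop)).and
          (hp.comp (f := fun x : (ℕ × ℕ) × (ℕ × ℕ) => (x.1.2, x.2.2)) (by fun_prop))
      exact h2.of_eq fun x => by rw [Prod.ext_iff]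
    exact DecIn.subst (f := fun x : ℕ × ℕ => (p x.1, p x.2)) h1 hr
  have hm : ∀ m, m ∈ X ↔ r' (2 * m) (2 * m + 1) := by
    intro m
    have e1 : (2 * m) / 2 = m := by omega
    have e2 : (2 * m + 1) / 2 = m := by omega
    have e3 : (2 * m) % 2 = 0 := by omega
    have e4 : (2 * m + 1) % 2 ≠ 0 := by omega
    by_cases h2 : cnd m
    · have p1 : p (2 * m) = 2 * m := by simp only [p, e1, if_pos h2]
      have p2 : p (2 * m + 1) = 2 * m + 1 := by simp only [p, e2, if_pos h2]
      show m ∈ X ↔ r (p (2 * m)) (p (2 * m + 1))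
      rw [p1, p2]; exact h2.symm
    · have p1 : p (2 * m) = 2 * m + 1 := by simp only [p, e1, if_neg h2, e3, if_true]
      have p2 : p (2 * m + 1) = 2 * m := by
        simp only [p, e2, if_neg h2, if_neg e4]; omega
      show m ∈ X ↔ r (p (2 * m)) (p (2 * m + 1))
      rw [p1, p2]
      have h3 : r (2 * m + 1) (2 * m) ↔ ¬ r (2 * m) (2 * m + 1) := by
        have h4 := her (e.symm (2 * m + 1)) (e.symm (2 * m))
        have h5 := her (e.symm (2 * m)) (e.symm (2 * m + 1))
        simp only [Equiv.apply_symm_apply] at h4 h5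
        rw [← h4, ← h5, not_lt]
        constructor
        · exact le_of_lt
        · intro h6
          refine lt_of_le_of_ne h6 fun h7 => ?_
          have := e.symm.injective h7
          omega
      rw [h3]
      simp only [cnd] at h2
      tauto
  refine ⟨r', e.trans P, fun a b => ?_, graph_DecIn hr', ?_⟩
  · show a < b ↔ r (p (p (e a))) (p (p (e b)))
    rw [hpp, hpp]; exact her a b
  · refine Red_iff_DecIn.2 ?_
    refine (DecIn_graph.comp (f := fun m : ℕ => (2 * m, 2 * m + 1)) (by fun_prop)).of_eq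
      fun m => ?_
    exact (hm m).symm

/-- A presentation decidable in `X` gives a copy with universe `ℕ` of exact degree `X`. -/
theorem exists_copy {X : Set ℕ} {C : Type} [Primcodable C] (D : C → Prop) (hD : DecIn X D)
    (lt : C → C → Prop) (hlt : DecIn X fun x : C × C => lt x.1 x.2)
    {L : Type} [LinearOrder L] [Infinite L] (e : L ≃ {c // D c})
    (he : ∀ a b, a < b ↔ lt (e a).1 (e b).1) (c0 : C) :
    ∃ (r' : ℕ → ℕ → Prop) (e' : L ≃ ℕ), (∀ a b, a < b ↔ r' (e' a) (e' b)) ∧
      Red (graph r') X ∧ Red X (graph r') := by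
  classical
  let D' : Set ℕ := {n | ∃ c : C, decode n = some c ∧ encode c = n ∧ D c}
  have hg : Computable fun n : ℕ => (decode n : Option C).getD c0 :=
    Computable.option_getD (by fun_prop) (by fun_prop)
  have hD' : DecIn X (· ∈ D') := by
    have h1 : DecIn X fun n : ℕ => (decode n : Option C).isSome = true ∧
        encode ((decode n : Option C).getD c0) = n ∧ D ((decode n : Option C).getD c0) := by
      refine (DecIn.eq (by fun_prop) (by fun_prop)).and (DecIn.and ?_ (hD.comp hg))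
      exact DecIn.eq (Computable.encode.comp hg) (by fun_prop)
    refine h1.of_eq fun n => ?_
    constructor
    · rintro ⟨h2, h3, h4⟩
      obtain ⟨c, hc⟩ := Option.isSome_iff_exists.1 h2
      rw [hc] at h3 h4
      exact ⟨c, hc, h3, h4⟩
    · rintro ⟨c, hc, h3, h4⟩
      rw [hc]; exact ⟨rfl, h3, h4⟩
  let g : {c // D c} ≃ D' :=
    { toFun := fun c => ⟨encode c.1, c.1, encodek c.1, rfl, c.2⟩
      invFun := fun n => ⟨(decode n.1 : Option C).getD c0, by
        obtain ⟨c, hc, -, h⟩ := n.2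
        rw [hc]; exact h⟩
      left_inv := fun c => by simp
      right_inv := fun n => by
        obtain ⟨n, c, hc, h1, h2⟩ := n
        apply Subtype.ext
        simp only [hc, Option.getD_some, h1] }
  have hinf : Infinite D' := Infinite.of_injective (fun a => g (e a)) (g.injective.comp e.injective)
  let f : ℕ ≃o D' := Nat.Subtype.orderIsoOfNat D'
  have hf : DecIn X fun x : ℕ × ℕ => ((f x.1 : D') : ℕ) = x.2 :=
    DecIn_of_fun (f := fun k : ℕ => ((f k : D') : ℕ)) (enum_REIn hD' f)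
  let h : ℕ → C := fun k => (decode ((f k : D') : ℕ) : Option C).getD c0
  have hk : ∀ k, encode (h k) = ((f k : D') : ℕ) := fun k => by
    obtain ⟨c, hc, h1, -⟩ := (f k).2
    show encode ((decode ((f k : D') : ℕ) : Option C).getD c0) = _
    rw [hc]; exact h1
  have hh : DecIn X fun x : ℕ × C => h x.1 = x.2 := by
    refine (hf.comp (f := fun x : ℕ × C => (x.1, encode x.2)) (by fun_prop)).of_eq fun x => ?_
    rw [← hk]
    exact ⟨fun h => encode_injective h, fun h => by rw [h]⟩
  have hhh : DecIn X fun x : (ℕ × ℕ) × (C × C) => (h x.1.1, h x.1.2) = x.2 := by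
    have h2 : DecIn X fun x : (ℕ × ℕ) × (C × C) => h x.1.1 = x.2.1 ∧ h x.1.2 = x.2.2 :=
      (hh.comp (f := fun x : (ℕ × ℕ) × (C × C) => (x.1.1, x.2.1)) (by fun_prop)).and
        (hh.comp (f := fun x : (ℕ × ℕ) × (C × C) => (x.1.2, x.2.2)) (by fun_prop))
    exact h2.of_eq fun x => by rw [Prod.ext_iff]
  let r : ℕ → ℕ → Prop := fun x y => lt (h x) (h y)
  have hr : DecIn X fun x : ℕ × ℕ => r x.1 x.2 :=
    DecIn.subst (f := fun x : ℕ × ℕ => (h x.1, h x.2)) hhh hlt
  refine exists_exact ((e.trans g).trans f.symm.toEquiv) r (fun a b => ?_) hr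
  have h5 : ∀ a, h (f.symm (g (e a))) = (e a).1 := fun a => by
    apply encode_injective
    rw [hk]
    simp [g]
  show a < b ↔ lt (h (f.symm (g (e a)))) (h (f.symm (g (e b))))
  rw [h5, h5]; exact he a b

end Run7.h872.LS
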